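import Pool.Agent.Lib.MP_ab86ea_al.Germs

/-! Kokorin problem: letters, the action of K, the shift and the local elements -/

/-! P4a, P4b: the system of words, the action of K -/

set_option autoImplicit false

namespace Pool.Agent.Kokorin

section Letter

variable {X0 : Type}

@[simp] theorem mkL_pt (v : X0) (n : ℤ) : (mkL v n).pt = v := rfl

@[simp] theorem mkL_lb (v : X0) (n : ℤ) : (mkL v n).lb = n := rfl

theorem mkL_eta (a : Letter X0) : mkL a.pt a.lb = a := rfl

theorem Letter.ext' {a b : Letter X0} (h1 : a.pt = b.pt) (h2 : a.lb = b.lb) : a = b := by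
  rw [← mkL_eta a, ← mkL_eta b, h1, h2]

theorem Letter.lt_iff [LinearOrder X0] {a b : Letter X0} :
    a < b ↔ a.pt < b.pt ∨ (a.pt = b.pt ∧ a.lb < b.lb) := Prod.Lex.lt_iff

theorem Letter.le_iff [LinearOrder X0] {a b : Letter X0} :
    a ≤ b ↔ a.pt < b.pt ∨ (a.pt = b.pt ∧ a.lb ≤ b.lb) := Prod.Lex.le_iff

variable {K : Type} [Group K] [MulAction K X0]

@[simp] theorem smul_pt (g : Multiplicative ℤ × K) (a : Letter X0) : (g • a).pt = g.2 • a.pt := rfl

@[simp] theorem smul_lb (g : Multiplicative ℤ × K) (a : Letter X0) :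
    (g • a).lb = g.1.toAdd + a.lb := rfl

end Letter

/-- comparison of two words by first letter and tail -/
theorem word_lt_iff {A : Type} [LinearOrder A] {s t : ℕ → A} :
    toLex s < toLex t ↔ s 0 < t 0 ∨ (s 0 = t 0 ∧ toLex (tail s) < toLex (tail t)) := by
  have h := cons_lt_cons (a := s 0) (b := t 0) (s := tail s) (t := tail t)
  rwa [cons_head_tail, cons_head_tail] at h

section Auts

variable {K X0 : Type} [Group K] [LinearOrder X0] [MulAction K X0] {P : K → Prop}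
  {H : Subgroup K} {c : K} {Lo : Set X0} {ym yp : X0}

theorem isCone_gpos (hP : IsCone P) : IsCone (gpos P) where
  one := by
    rintro (h | ⟨-, h⟩)
    · simp at h
    · exact hP.one h
  mul := by
    rintro ⟨m, k⟩ ⟨m', k'⟩ h h'
    simp only [gpos, Prod.mk_mul_mk, toAdd_mul] at h h' ⊢
    rcases h with h | ⟨rfl, h⟩
    · rcases h' with h' | ⟨rfl, h'⟩
      · left; omega
      · left; simpa using h
    · rcases h' with h' | ⟨rfl, h'⟩
      · left; simpa using h'
      · right; exact ⟨one_mul 1, hP.mul _ _ h h'⟩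
  conj := by
    rintro ⟨m, k⟩ ⟨m', k'⟩ h
    simp only [gpos, Prod.mk_mul_mk, Prod.inv_mk, toAdd_mul, toAdd_inv] at h ⊢
    rcases h with h | ⟨rfl, h⟩
    · left; omega
    · right; exact ⟨by simp, hP.conj _ _ h⟩
  total := by
    rintro ⟨m, k⟩ h
    simp only [gpos, Prod.inv_mk, toAdd_inv]
    rcases lt_trichotomy m.toAdd 0 with h1 | h1 | h1
    · right; left; omega
    · have hm : m = 1 := by
        rw [← ofAdd_toAdd m, h1]; rfl
      subst hm
      have hk : k ≠ 1 := by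
        rintro rfl; exact h rfl
      rcases hP.total k hk with h2 | h2
      · left; right; exact ⟨rfl, h2⟩
      · right; right; exact ⟨inv_one, h2⟩
    · left; left; exact h1

/-- P4a: the system of words -/
def sys (hP : IsCone P) (hc : IsChain P H c Lo ym yp) :
    Sys (Letter X0) (Multiplicative ℤ × K) where
  V := {a | (a.pt ∈ Lo ∧ a.lb < 0) ∨ (a.pt ∉ Lo ∧ 0 < a.lb)}
  V0 := {a | ((a.pt ∈ Lo ∧ a.lb < 0) ∨ (a.pt ∉ Lo ∧ 0 < a.lb)) ∧ ym < a.pt ∧ a.pt < yp}
  pos := gpos P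
  sub := fun a h => h.1
  nomin := by
    rintro a ⟨h1, h2, h3⟩
    rcases h1 with ⟨h4, h5⟩ | ⟨h4, h5⟩
    · refine ⟨mkL a.pt (a.lb - 1), ⟨Or.inl ⟨h4, ?_⟩, h2, h3⟩, ?_⟩
      · rw [mkL_lb]; omega
      · rw [Letter.lt_iff]; right
        refine ⟨rfl, ?_⟩
        rw [mkL_lb]; omega
    · have h6 : c • ym ∈ Lo := (hc.lo_smul c ym).1 hc.ym_mem
      refine ⟨mkL (c • ym) (-1), ⟨Or.inl ⟨h6, by rw [mkL_lb]; omega⟩, hc.ym_lt, ?_⟩, ?_⟩
      · exact hc.lo_lt _ h6 _ hc.yp_mem
      · rw [Letter.lt_iff]; left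
        exact hc.lo_lt _ h6 _ h4
  ne := by
    have h6 : c • ym ∈ Lo := (hc.lo_smul c ym).1 hc.ym_mem
    exact ⟨mkL (c • ym) (-1), ⟨Or.inl ⟨h6, by rw [mkL_lb]; omega⟩, hc.ym_lt,
      hc.lo_lt _ h6 _ hc.yp_mem⟩⟩
  cone := isCone_gpos hP
  mono := by
    intro g a b h
    rw [Letter.lt_iff] at h ⊢
    rcases h with h | ⟨h, h'⟩
    · left; exact hc.mono _ _ _ h
    · right
      refine ⟨by rw [smul_pt, smul_pt, h], ?_⟩
      rw [smul_lb, smul_lb]; omega
  conv := by
    rintro ⟨m, k⟩ ⟨m', k'⟩ a h h' h2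
    have e1 := congrArg Letter.pt h2
    have e2 := congrArg Letter.lb h2
    simp only [Prod.mk_mul_mk, smul_pt, smul_lb, toAdd_mul] at e1 e2
    simp only [gpos] at h h'
    rcases h with h | ⟨rfl, h⟩
    · rcases h' with h' | ⟨rfl, h'⟩
      · omega
      · rw [toAdd_one] at e2; omega
    · rcases h' with h' | ⟨rfl, h'⟩
      · rw [toAdd_one] at e2; omega
      · apply Letter.ext'
        · exact hc.conv k k' _ h h' e1
        · simp

theorem smul_mem_V (hP : IsCone P) (hc : IsChain P H c Lo ym yp) (k : K) {a : Letter X0}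
    (h : a ∈ (sys hP hc).V) : ((1 : Multiplicative ℤ), k) • a ∈ (sys hP hc).V := by
  rcases h with ⟨h1, h2⟩ | ⟨h1, h2⟩
  · left
    exact ⟨(hc.lo_smul _ _).1 h1, by simpa using h2⟩
  · right
    exact ⟨fun h => h1 ((hc.lo_smul _ _).2 h), by simpa using h2⟩

/-- action of `k` on words -/
noncomputable def kfun (hP : IsCone P) (hc : IsChain P H c Lo ym yp) (k : K)
    (s : (sys hP hc).X) : (sys hP hc).X :=
  ⟨cons (((1 : Multiplicative ℤ), k) • (s.1 0)) (tail s.1), smul_mem_V hP hc k s.2.1, s.2.2⟩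

theorem kfun_mul (hP : IsCone P) (hc : IsChain P H c Lo ym yp) (k k' : K)
    (s : (sys hP hc).X) : kfun hP hc (k * k') s = kfun hP hc k (kfun hP hc k' s) := by
  apply Subtype.ext
  change cons _ _ = cons _ _
  rw [cons_inj]
  refine ⟨?_, rfl⟩
  change _ = ((1 : Multiplicative ℤ), k) • (((1 : Multiplicative ℤ), k') • (s.1 0))
  rw [← mul_smul, Prod.mk_mul_mk, one_mul]

theorem kfun_one (hP : IsCone P) (hc : IsChain P H c Lo ym yp)
    (s : (sys hP hc).X) : kfun hP hc 1 s = s := by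
  apply Subtype.ext
  have h := cons_head_tail s.1
  rw [← h]
  change cons _ _ = cons _ _
  rw [cons_inj]
  refine ⟨?_, rfl⟩
  change (1 : Multiplicative ℤ × K) • _ = _
  rw [one_smul]

theorem kfun_lt (hP : IsCone P) (hc : IsChain P H c Lo ym yp) (k : K)
    {s t : (sys hP hc).X} (h : s < t) : kfun hP hc k s < kfun hP hc k t := by
  have h1 : s.1 < t.1 := h
  have h2 := (word_lt_iff (s := s.1) (t := t.1)).1 h1
  change toLex (cons (((1 : Multiplicative ℤ), k) • (s.1 0)) (tail s.1)) <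
    toLex (cons (((1 : Multiplicative ℤ), k) • (t.1 0)) (tail t.1))
  refine cons_lt_cons.2 ?_
  rcases h2 with h2 | ⟨h2, h3⟩
  · left; exact (sys hP hc).mono _ _ _ h2
  · right; exact ⟨by rw [h2], h3⟩

/-- action of `k` on words, as an automorphism -/
noncomputable def kiso (hP : IsCone P) (hc : IsChain P H c Lo ym yp) (k : K) :
    (sys hP hc).X ≃o (sys hP hc).X where
  toFun := kfun hP hc k
  invFun := kfun hP hc k⁻¹
  left_inv s := by rw [← kfun_mul, inv_mul_cancel, kfun_one]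
  right_inv s := by rw [← kfun_mul, mul_inv_cancel, kfun_one]
  map_rel_iff' := by
    intro s t
    have h : StrictMono (kfun hP hc k) := fun s t h => kfun_lt hP hc k h
    exact h.le_iff_le

theorem kiso_val (hP : IsCone P) (hc : IsChain P H c Lo ym yp) (k : K) (s : (sys hP hc).X) :
    (kiso hP hc k s).1 = cons (((1 : Multiplicative ℤ), k) • (s.1 0)) (tail s.1) := rfl

theorem kiso_cons (hP : IsCone P) (hc : IsChain P H c Lo ym yp) (k : K) (s : (sys hP hc).X)
    (a : Letter X0) (w : ℕ → Letter X0) (h : s.1 = cons a w) :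
    (kiso hP hc k s).1 = cons (((1 : Multiplicative ℤ), k) • a) w := by
  rw [kiso_val]
  have h0 : s.1 0 = a := by rw [h]; rfl
  have h1 : tail s.1 = w := by rw [h]; rfl
  rw [h0, h1]

theorem good_kiso (hP : IsCone P) (hc : IsChain P H c Lo ym yp) (k : K) :
    (sys hP hc).Good (kiso hP hc k) := by
  constructor
  · refine ⟨1, 0, ?_⟩
    intro Q hQ hl
    cases Q with
    | nil => simp at hl
    | cons b Q =>
      refine ⟨(((1 : Multiplicative ℤ), k) • b) :: Q, by simp, ?_⟩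
      intro s w hs
      exact kiso_cons hP hc k s b (app Q w) hs
  · intro Q u hcut
    obtain ⟨a0, ha0⟩ := hcut.ne
    refine ⟨a0, ha0, ?_⟩
    cases Q with
    | nil =>
      refine ⟨((1 : Multiplicative ℤ), k), [], ?_⟩
      intro a _ _ s w hs
      exact kiso_cons hP hc k s a w hs
    | cons b Q =>
      refine ⟨1, (((1 : Multiplicative ℤ), k) • b) :: Q, ?_⟩
      intro a _ _ s w hs
      rw [one_smul]
      exact kiso_cons hP hc k s b (app Q (cons a w)) hs

theorem kiso_inv (hP : IsCone P) (hc : IsChain P H c Lo ym yp) (k : K) :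
    (kiso hP hc k)⁻¹ = kiso hP hc k⁻¹ := by
  apply RelIso.ext
  intro s
  rfl

/-- P4b: the action of `K` -/
theorem exists_hom (hP : IsCone P) (hc : IsChain P H c Lo ym yp) :
    ∃ F : K →* (sys hP hc).Γ, (∀ k (s : (sys hP hc).X),
      ((F k).1 s).1 = cons (((1 : Multiplicative ℤ), k) • (s.1 0)) (tail s.1)) ∧
      ∀ k, P k → (sys hP hc).Pos (F k).1 := by
  refine ⟨MonoidHom.mk' (fun k => ⟨kiso hP hc k, good_kiso hP hc k, ?_⟩) ?_, ?_, ?_⟩
  · rw [kiso_inv]; exact good_kiso hP hc k⁻¹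
  · intro k k'
    apply Subtype.ext
    apply RelIso.ext
    intro s
    exact kfun_mul hP hc k k' s
  · intro k s
    rfl
  · intro k hk
    refine (sys hP hc).pos_of_germ (kiso hP hc k) (good_kiso hP hc k) ?_
      ((1 : Multiplicative ℤ), k) (Or.inr ⟨rfl, hk⟩) ?_
    · intro h
      have hk1 : k ≠ 1 := by
        rintro rfl; exact hP.one hk
      obtain ⟨v, hv⟩ := hc.faith k hk1
      obtain ⟨a, ha⟩ := (sys hP hc).ne
      -- a letter with point `v`
      have hb : ∃ b : Letter X0, b ∈ (sys hP hc).V ∧ b.pt = v := by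
        by_cases hvL : v ∈ Lo
        · exact ⟨mkL v (-1), Or.inl ⟨hvL, by rw [mkL_lb]; omega⟩, rfl⟩
        · exact ⟨mkL v 1, Or.inr ⟨hvL, by rw [mkL_lb]; omega⟩, rfl⟩
      obtain ⟨b, hb, hbv⟩ := hb
      let s : (sys hP hc).X := ⟨cons b (fun _ => a), hb, fun _ => ha⟩
      have h1 : kiso hP hc k s = s := by rw [h]; rfl
      have h2 := kiso_cons hP hc k s b _ rfl
      rw [h1] at h2
      have h3 : b = ((1 : Multiplicative ℤ), k) • b := congrFun h2 0
      apply hv
      rw [← hbv]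
      exact (congrArg Letter.pt h3).symm
    · intro a s w hs
      exact kiso_cons hP hc k s a w hs

end Auts

end Pool.Agent.Kokorin

/-! P4c: the shift x -/

set_option autoImplicit false

namespace Pool.Agent.Kokorin

namespace Sh

section Raw

variable {X0 : Type} [LinearOrder X0]

theorem mkL_pt (v : X0) (n : ℤ) : (mkL v n).pt = v := rfl
theorem mkL_lb (v : X0) (n : ℤ) : (mkL v n).lb = n := rfl
theorem mkL_eta (a : Letter X0) : mkL a.pt a.lb = a := rfl

theorem letter_lt_iff (a b : Letter X0) :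
    a < b ↔ a.pt < b.pt ∨ (a.pt = b.pt ∧ a.lb < b.lb) := by
  exact Prod.Lex.lt_iff

theorem letter_le_pt {a b : Letter X0} (h : a ≤ b) : a.pt ≤ b.pt := by
  rcases h.lt_or_eq with h | h
  · rcases (letter_lt_iff a b).1 h with h | h
    · exact h.le
    · exact h.1.le
  · rw [h]

theorem tail_cons {A : Type} (a : A) (s : ℕ → A) : tail (cons a s) = s := rfl
theorem cons_zero {A : Type} (a : A) (s : ℕ → A) : cons a s 0 = a := rfl

open Classical in
/-- the raw shift -/
noncomputable def xf (ym yp : X0) (s : ℕ → Letter X0) : ℕ → Letter X0 :=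
  if (s 0).pt < ym then s
  else if (s 0).pt = ym then
    (if (s 0).lb = -1 then tail s else cons (mkL ym ((s 0).lb + 1)) (tail s))
  else if (s 0).pt < yp then cons (mkL yp 1) s
  else if (s 0).pt = yp then cons (mkL yp ((s 0).lb + 1)) (tail s)
  else s

open Classical in
/-- the raw inverse shift -/
noncomputable def xg (ym yp : X0) (s : ℕ → Letter X0) : ℕ → Letter X0 :=
  if (s 0).pt < ym then s
  else if (s 0).pt = ym then cons (mkL ym ((s 0).lb - 1)) (tail s)
  else if (s 0).pt < yp then cons (mkL ym (-1)) s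
  else if (s 0).pt = yp then
    (if (s 0).lb = 1 then tail s else cons (mkL yp ((s 0).lb - 1)) (tail s))
  else s

variable {ym yp : X0}

theorem xf_1 {s : ℕ → Letter X0} (h : (s 0).pt < ym) : xf ym yp s = s := by
  simp [xf, h]
theorem xf_2a {s : ℕ → Letter X0} (h : (s 0).pt = ym) (h' : (s 0).lb = -1) :
    xf ym yp s = tail s := by
  simp [xf, h, h']
theorem xf_2b {s : ℕ → Letter X0} (h : (s 0).pt = ym) (h' : (s 0).lb ≠ -1) :
    xf ym yp s = cons (mkL ym ((s 0).lb + 1)) (tail s) := by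
  simp [xf, h, h']
theorem xf_3 {s : ℕ → Letter X0} (h : ym < (s 0).pt) (h' : (s 0).pt < yp) :
    xf ym yp s = cons (mkL yp 1) s := by
  simp [xf, h.not_gt, h.ne', h']
theorem xf_4 {s : ℕ → Letter X0} (hy : ym < yp) (h : (s 0).pt = yp) :
    xf ym yp s = cons (mkL yp ((s 0).lb + 1)) (tail s) := by
  simp [xf, h, hy.not_gt, hy.ne']
theorem xf_5 {s : ℕ → Letter X0} (hy : ym < yp) (h : yp < (s 0).pt) : xf ym yp s = s := by
  simp [xf, (hy.trans h).not_gt, (hy.trans h).ne', h.not_gt, h.ne']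

theorem xg_1 {s : ℕ → Letter X0} (h : (s 0).pt < ym) : xg ym yp s = s := by
  simp [xg, h]
theorem xg_2 {s : ℕ → Letter X0} (h : (s 0).pt = ym) :
    xg ym yp s = cons (mkL ym ((s 0).lb - 1)) (tail s) := by
  simp [xg, h]
theorem xg_3 {s : ℕ → Letter X0} (h : ym < (s 0).pt) (h' : (s 0).pt < yp) :
    xg ym yp s = cons (mkL ym (-1)) s := by
  simp [xg, h.not_gt, h.ne', h']
theorem xg_4a {s : ℕ → Letter X0} (hy : ym < yp) (h : (s 0).pt = yp) (h' : (s 0).lb = 1) :
    xg ym yp s = tail s := by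
  simp [xg, h, hy.not_gt, hy.ne', h']
theorem xg_4b {s : ℕ → Letter X0} (hy : ym < yp) (h : (s 0).pt = yp) (h' : (s 0).lb ≠ 1) :
    xg ym yp s = cons (mkL yp ((s 0).lb - 1)) (tail s) := by
  simp [xg, h, hy.not_gt, hy.ne', h']
theorem xg_5 {s : ℕ → Letter X0} (hy : ym < yp) (h : yp < (s 0).pt) : xg ym yp s = s := by
  simp [xg, (hy.trans h).not_gt, (hy.trans h).ne', h.not_gt, h.ne']

end Raw

section Auts

variable {K X0 : Type} [Group K] [LinearOrder X0] [MulAction K X0] {P : K → Prop}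
  {H : Subgroup K} {c : K} {Lo : Set X0} {ym yp : X0}

theorem ym_lt_yp (hc : IsChain P H c Lo ym yp) : ym < yp :=
  hc.lo_lt ym hc.ym_mem yp hc.yp_mem

/-- validity of a word -/
def Vld (Lo : Set X0) (ym yp : X0) (s : ℕ → Letter X0) : Prop :=
  (((s 0).pt ∈ Lo ∧ (s 0).lb < 0) ∨ ((s 0).pt ∉ Lo ∧ 0 < (s 0).lb)) ∧
    ∀ i, ((((s (i + 1)).pt ∈ Lo ∧ (s (i + 1)).lb < 0) ∨ ((s (i + 1)).pt ∉ Lo ∧ 0 < (s (i + 1)).lb)) ∧
      ym < (s (i + 1)).pt ∧ (s (i + 1)).pt < yp)

theorem vld_coe (hP : IsCone P) (hc : IsChain P H c Lo ym yp) (s : (sys hP hc).X) :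
    Vld Lo ym yp s.1 := s.2

theorem Vld.tail {s : ℕ → Letter X0} (h : Vld Lo ym yp s) : Vld Lo ym yp (tail s) :=
  ⟨(h.2 0).1, fun i => h.2 (i + 1)⟩

theorem Vld.tail_pt {s : ℕ → Letter X0} (h : Vld Lo ym yp s) :
    ym < (Pool.Agent.Kokorin.tail s 0).pt ∧ (Pool.Agent.Kokorin.tail s 0).pt < yp := (h.2 0).2

theorem Vld.cons_tail {s : ℕ → Letter X0} (h : Vld Lo ym yp s) (a : Letter X0)
    (ha : (a.pt ∈ Lo ∧ a.lb < 0) ∨ (a.pt ∉ Lo ∧ 0 < a.lb)) :
    Vld Lo ym yp (cons a (Pool.Agent.Kokorin.tail s)) :=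
  ⟨ha, fun i => h.2 i⟩

theorem Vld.cons {s : ℕ → Letter X0} (h : Vld Lo ym yp s) (h1 : ym < (s 0).pt) (h2 : (s 0).pt < yp)
    (a : Letter X0) (ha : (a.pt ∈ Lo ∧ a.lb < 0) ∨ (a.pt ∉ Lo ∧ 0 < a.lb)) :
    Vld Lo ym yp (cons a s) := by
  refine ⟨ha, fun i => ?_⟩
  cases i with
  | zero => exact ⟨h.1, h1, h2⟩
  | succ i => exact h.2 i

theorem zones (s : ℕ → Letter X0) (hy : ym < yp) :
    (s 0).pt < ym ∨ (s 0).pt = ym ∨ (ym < (s 0).pt ∧ (s 0).pt < yp) ∨ (s 0).pt = yp ∨
      yp < (s 0).pt := by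
  rcases lt_trichotomy (s 0).pt ym with h | h | h
  · exact Or.inl h
  · exact Or.inr (Or.inl h)
  · rcases lt_trichotomy (s 0).pt yp with h' | h' | h'
    · exact Or.inr (Or.inr (Or.inl ⟨h, h'⟩))
    · exact Or.inr (Or.inr (Or.inr (Or.inl h')))
    · exact Or.inr (Or.inr (Or.inr (Or.inr h')))

theorem lb_neg (hc : IsChain P H c Lo ym yp) {s : ℕ → Letter X0} (hs : Vld Lo ym yp s)
    (h : (s 0).pt = ym) : (s 0).lb < 0 := by
  rcases hs.1 with h' | h'
  · exact h'.2
  · exact absurd (h ▸ hc.ym_mem) h'.1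

theorem lb_pos (hc : IsChain P H c Lo ym yp) {s : ℕ → Letter X0} (hs : Vld Lo ym yp s)
    (h : (s 0).pt = yp) : 0 < (s 0).lb := by
  rcases hs.1 with h' | h'
  · exact absurd (h ▸ h'.1) hc.yp_mem
  · exact h'.2

theorem xf_vld (hc : IsChain P H c Lo ym yp) {s : ℕ → Letter X0} (hs : Vld Lo ym yp s) :
    Vld Lo ym yp (xf ym yp s) := by
  have hy := ym_lt_yp hc
  rcases zones s hy with h | h | h | h | h
  · rwa [xf_1 h]
  · have h1 := lb_neg hc hs h
    by_cases h' : (s 0).lb = -1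
    · rw [xf_2a h h']; exact hs.tail
    · rw [xf_2b h h']
      exact hs.cons_tail _ (Or.inl ⟨hc.ym_mem, by rw [mkL_lb]; omega⟩)
  · rw [xf_3 h.1 h.2]
    exact hs.cons h.1 h.2 _ (Or.inr ⟨hc.yp_mem, by rw [mkL_lb]; omega⟩)
  · have h1 := lb_pos hc hs h
    rw [xf_4 hy h]
    exact hs.cons_tail _ (Or.inr ⟨hc.yp_mem, by rw [mkL_lb]; omega⟩)
  · rwa [xf_5 hy h]

theorem xg_vld (hc : IsChain P H c Lo ym yp) {s : ℕ → Letter X0} (hs : Vld Lo ym yp s) :
    Vld Lo ym yp (xg ym yp s) := by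
  have hy := ym_lt_yp hc
  rcases zones s hy with h | h | h | h | h
  · rwa [xg_1 h]
  · have h1 := lb_neg hc hs h
    rw [xg_2 h]
    exact hs.cons_tail _ (Or.inl ⟨hc.ym_mem, by rw [mkL_lb]; omega⟩)
  · rw [xg_3 h.1 h.2]
    exact hs.cons h.1 h.2 _ (Or.inl ⟨hc.ym_mem, by rw [mkL_lb]; omega⟩)
  · have h1 := lb_pos hc hs h
    by_cases h' : (s 0).lb = 1
    · rw [xg_4a hy h h']; exact hs.tail
    · rw [xg_4b hy h h']
      exact hs.cons_tail _ (Or.inr ⟨hc.yp_mem, by rw [mkL_lb]; omega⟩)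
  · rwa [xg_5 hy h]

theorem xf_xg (hc : IsChain P H c Lo ym yp) {s : ℕ → Letter X0} (hs : Vld Lo ym yp s) :
    xf ym yp (xg ym yp s) = s := by
  have hy := ym_lt_yp hc
  rcases zones s hy with h | h | h | h | h
  · rw [xg_1 h, xf_1 h]
  · have h1 := lb_neg hc hs h
    rw [xg_2 h, xf_2b (by rw [cons_zero, mkL_pt]) (by rw [cons_zero, mkL_lb]; omega), tail_cons,
      cons_zero, mkL_lb, sub_add_cancel, ← h, mkL_eta, cons_head_tail]
  · rw [xg_3 h.1 h.2, xf_2a (by rw [cons_zero, mkL_pt]) (by rw [cons_zero, mkL_lb]), tail_cons]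
  · have h1 := lb_pos hc hs h
    by_cases h' : (s 0).lb = 1
    · rw [xg_4a hy h h', xf_3 hs.tail_pt.1 hs.tail_pt.2, ← h', ← h, mkL_eta, cons_head_tail]
    · rw [xg_4b hy h h', xf_4 hy (by rw [cons_zero, mkL_pt]), tail_cons,
        cons_zero, mkL_lb, sub_add_cancel, ← h, mkL_eta, cons_head_tail]
  · rw [xg_5 hy h, xf_5 hy h]

theorem xg_xf (hc : IsChain P H c Lo ym yp) {s : ℕ → Letter X0} (hs : Vld Lo ym yp s) :
    xg ym yp (xf ym yp s) = s := by
  have hy := ym_lt_yp hc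
  rcases zones s hy with h | h | h | h | h
  · rw [xf_1 h, xg_1 h]
  · have h1 := lb_neg hc hs h
    by_cases h' : (s 0).lb = -1
    · rw [xf_2a h h', xg_3 hs.tail_pt.1 hs.tail_pt.2, ← h', ← h, mkL_eta, cons_head_tail]
    · rw [xf_2b h h', xg_2 (by rw [cons_zero, mkL_pt]), tail_cons,
        cons_zero, mkL_lb, add_sub_cancel_right, ← h, mkL_eta, cons_head_tail]
  · rw [xf_3 h.1 h.2, xg_4a hy (by rw [cons_zero, mkL_pt]) (by rw [cons_zero, mkL_lb]), tail_cons]
  · have h1 := lb_pos hc hs h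
    rw [xf_4 hy h, xg_4b hy (by rw [cons_zero, mkL_pt]) (by rw [cons_zero, mkL_lb]; omega),
      tail_cons, cons_zero, mkL_lb, add_sub_cancel_right, ← h, mkL_eta, cons_head_tail]
  · rw [xf_5 hy h, xg_5 hy h]

theorem lt_iff (s t : ℕ → Letter X0) :
    toLex s < toLex t ↔ (s 0).pt < (t 0).pt ∨ ((s 0).pt = (t 0).pt ∧ (s 0).lb < (t 0).lb) ∨
      (s 0 = t 0 ∧ toLex (tail s) < toLex (tail t)) := by
  conv_lhs => rw [← cons_head_tail s, ← cons_head_tail t]
  rw [cons_lt_cons, letter_lt_iff]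
  tauto

theorem xf_ge (hc : IsChain P H c Lo ym yp) {s : ℕ → Letter X0} (hs : Vld Lo ym yp s)
    (h0 : ym ≤ (s 0).pt) : ym ≤ (xf ym yp s 0).pt := by
  have hy := ym_lt_yp hc
  rcases zones s hy with h | h | h | h | h
  · exact absurd h h0.not_gt
  · by_cases h' : (s 0).lb = -1
    · rw [xf_2a h h']; exact hs.tail_pt.1.le
    · rw [xf_2b h h', cons_zero, mkL_pt]
  · rw [xf_3 h.1 h.2, cons_zero, mkL_pt]; exact hy.le
  · rw [xf_4 hy h, cons_zero, mkL_pt]; exact hy.le
  · rwa [xf_5 hy h]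

theorem xf_le (hc : IsChain P H c Lo ym yp) {s : ℕ → Letter X0} (hs : Vld Lo ym yp s)
    (h0 : (s 0).pt ≤ yp) : (xf ym yp s 0).pt ≤ yp := by
  have hy := ym_lt_yp hc
  rcases zones s hy with h | h | h | h | h
  · rwa [xf_1 h]
  · by_cases h' : (s 0).lb = -1
    · rw [xf_2a h h']; exact hs.tail_pt.2.le
    · rw [xf_2b h h', cons_zero, mkL_pt]; exact hy.le
  · rw [xf_3 h.1 h.2, cons_zero, mkL_pt]
  · rw [xf_4 hy h, cons_zero, mkL_pt]
  · exact absurd h h0.not_gt

/-- in zone 2 the image lies strictly below `yp` -/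
theorem xf_2_lt (hc : IsChain P H c Lo ym yp) {s : ℕ → Letter X0} (hs : Vld Lo ym yp s)
    (h : (s 0).pt = ym) : (xf ym yp s 0).pt < yp := by
  have hy := ym_lt_yp hc
  by_cases h' : (s 0).lb = -1
  · rw [xf_2a h h']; exact hs.tail_pt.2
  · rw [xf_2b h h', cons_zero, mkL_pt]; exact hy

theorem xf_lt (hc : IsChain P H c Lo ym yp) {s t : ℕ → Letter X0} (hs : Vld Lo ym yp s)
    (ht : Vld Lo ym yp t) (hst : toLex s < toLex t) :
    toLex (xf ym yp s) < toLex (xf ym yp t) := by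
  have hy := ym_lt_yp hc
  have hpt : (s 0).pt ≤ (t 0).pt := by
    rcases (lt_iff s t).1 hst with h | h | h
    · exact h.le
    · exact h.1.le
    · rw [h.1]
  rcases zones s hy with h | h | h | h | h
  · -- zone 1
    rcases lt_or_ge (t 0).pt ym with h' | h'
    · rw [xf_1 h, xf_1 h']; exact hst
    · rw [lt_iff]
      left
      rw [xf_1 h]
      exact h.trans_le (xf_ge hc ht h')
  · -- zone 2
    have hsl := lb_neg hc hs h
    rcases zones t hy with h' | h' | h' | h' | h'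
    · exact absurd (hpt.trans_lt h') (by rw [h]; exact lt_irrefl _)
    · have htl := lb_neg hc ht h'
      rcases (lt_iff s t).1 hst with h1 | h1 | h1
      · exact absurd h1 (by rw [h, h']; exact lt_irrefl _)
      · have h2 : (s 0).lb ≠ -1 := by omega
        rw [xf_2b h h2]
        by_cases h3 : (t 0).lb = -1
        · rw [xf_2a h' h3, lt_iff]
          left
          rw [cons_zero, mkL_pt]
          exact ht.tail_pt.1
        · rw [xf_2b h' h3, lt_iff]
          right; left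
          rw [cons_zero, cons_zero, mkL_pt, mkL_pt, mkL_lb, mkL_lb]
          exact ⟨rfl, by omega⟩
      · by_cases h3 : (s 0).lb = -1
        · rw [xf_2a h h3, xf_2a h' (by rw [← h1.1]; exact h3)]
          exact h1.2
        · rw [xf_2b h h3, xf_2b h' (by rw [← h1.1]; exact h3), lt_iff]
          right; right
          rw [cons_zero, cons_zero, tail_cons, tail_cons, h1.1]
          exact ⟨rfl, h1.2⟩
    · rw [lt_iff]
      left
      refine (xf_2_lt hc hs h).trans_le ?_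
      rw [xf_3 h'.1 h'.2, cons_zero, mkL_pt]
    · rw [lt_iff]
      left
      refine (xf_2_lt hc hs h).trans_le ?_
      rw [xf_4 hy h', cons_zero, mkL_pt]
    · rw [lt_iff]
      left
      refine (xf_2_lt hc hs h).trans ?_
      rw [xf_5 hy h']; exact h'
  · -- zone 3
    rw [xf_3 h.1 h.2]
    rcases zones t hy with h' | h' | h' | h' | h'
    · exact absurd (hpt.trans_lt h') h.1.not_gt
    · exact absurd (h.1.trans_le hpt) (by rw [h']; exact lt_irrefl _)
    · rw [xf_3 h'.1 h'.2, lt_iff]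
      right; right
      rw [cons_zero, cons_zero, tail_cons, tail_cons]
      exact ⟨rfl, hst⟩
    · have htl := lb_pos hc ht h'
      rw [xf_4 hy h', lt_iff]
      right; left
      rw [cons_zero, cons_zero, mkL_pt, mkL_pt, mkL_lb, mkL_lb]
      exact ⟨rfl, by omega⟩
    · rw [xf_5 hy h', lt_iff]
      left
      rw [cons_zero, mkL_pt]
      exact h'
  · -- zone 4
    have hsl := lb_pos hc hs h
    rw [xf_4 hy h]
    rcases lt_or_eq_of_le hpt with h' | h'
    · rw [h] at h'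
      rw [xf_5 hy h', lt_iff]
      left
      rw [cons_zero, mkL_pt]
      exact h'
    · rw [h] at h'
      rw [xf_4 hy h'.symm]
      rcases (lt_iff s t).1 hst with h1 | h1 | h1
      · exact absurd h1 (by rw [h, ← h']; exact lt_irrefl _)
      · rw [lt_iff]
        right; left
        rw [cons_zero, cons_zero, mkL_pt, mkL_pt, mkL_lb, mkL_lb]
        exact ⟨rfl, by omega⟩
      · rw [lt_iff]
        right; right
        rw [cons_zero, cons_zero, tail_cons, tail_cons, h1.1]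
        exact ⟨rfl, h1.2⟩
  · -- zone 5
    rw [xf_5 hy h, xf_5 hy (h.trans_le hpt)]
    exact hst

/-- the shift as an order automorphism -/
noncomputable def xiso (hP : IsCone P) (hc : IsChain P H c Lo ym yp) :
    (sys hP hc).X ≃o (sys hP hc).X :=
  StrictMono.orderIsoOfRightInverse
    (fun s => ⟨toLex (xf ym yp s.1), xf_vld hc (vld_coe hP hc s)⟩)
    (fun s t h => xf_lt hc (vld_coe hP hc s) (vld_coe hP hc t) h)
    (fun s => ⟨toLex (xg ym yp s.1), xg_vld hc (vld_coe hP hc s)⟩)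
    (fun s => Subtype.ext (xf_xg hc (vld_coe hP hc s)))

theorem xiso_coe (hP : IsCone P) (hc : IsChain P H c Lo ym yp) (s : (sys hP hc).X) :
    (xiso hP hc s).1 = xf ym yp s.1 := rfl

theorem xiso_inv_coe (hP : IsCone P) (hc : IsChain P H c Lo ym yp) (s : (sys hP hc).X) :
    ((xiso hP hc)⁻¹ s).1 = xg ym yp s.1 := rfl

end Auts

/-! ### rewriting rules -/

section Rules

variable {A 𝒢 : Type} [LinearOrder A] [Group 𝒢] [MulAction 𝒢 A] (S : Sys A 𝒢)

/-- the first letter `b` is rewritten to the list `Q` -/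
def Rule (f : S.X ≃o S.X) : Prop :=
  ∀ b : A, ∃ Q : List A, ∀ s : S.X, s.1 0 = b → (f s).1 = app Q (tail s.1)

theorem Rule.germ {f : S.X ≃o S.X} (h : Rule S f) (b : A) (P1 : List A) :
    ∃ P' : List A, P1.length ≤ P'.length ∧ (∀ (s : S.X) (w : ℕ → A), s.1 = app (b :: P1) w →
      (f s).1 = app P' w) := by
  obtain ⟨Q, hQ⟩ := h b
  refine ⟨Q ++ P1, by simp, fun s w hs => ?_⟩
  rw [hQ s (by rw [hs]; rfl), app_append, hs]
  rfl

theorem Rule.deep {f : S.X ≃o S.X} (h : Rule S f) : S.Deep f := by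
  refine ⟨1, 1, fun P _ hP => ?_⟩
  cases P with
  | nil => simp at hP
  | cons b P1 =>
    obtain ⟨P', h1, h2⟩ := h.germ S b P1
    exact ⟨P', by simp; omega, h2⟩

theorem Rule.tame_cons {f : S.X ≃o S.X} (h : Rule S f) (b : A) (P1 : List A) (u : Set A)
    (hc : S.Cut (b :: P1) u) :
    ∃ a0 ∈ u, ∃ g P', ∀ a ∈ u, a ≤ a0 → S.Germ f (b :: P1) g P' a := by
  obtain ⟨a0, ha0⟩ := hc.ne
  obtain ⟨P', h1, h2⟩ := h.germ S b P1
  refine ⟨a0, ha0, 1, P', fun a _ _ s w hs => ?_⟩
  rw [one_smul]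
  exact h2 s _ hs

end Rules

section Good

variable {K X0 : Type} [Group K] [LinearOrder X0] [MulAction K X0] {P : K → Prop}
  {H : Subgroup K} {c : K} {Lo : Set X0} {ym yp : X0}

theorem rule_x (hP : IsCone P) (hc : IsChain P H c Lo ym yp) :
    Rule (sys hP hc) (xiso hP hc) := by
  have hy := ym_lt_yp hc
  intro b
  have key : ∀ s : ℕ → Letter X0, s 0 = b → cons b (tail s) = s := by
    intro s hs
    rw [← hs, cons_head_tail]
  rcases zones (fun _ => b) hy with h | h | h | h | h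
  · refine ⟨[b], fun s hs => ?_⟩
    rw [xiso_coe, xf_1 (by rw [hs]; exact h)]
    exact (key _ hs).symm
  · by_cases h' : b.lb = -1
    · refine ⟨[], fun s hs => ?_⟩
      rw [xiso_coe, xf_2a (by rw [hs]; exact h) (by rw [hs]; exact h')]
      rfl
    · refine ⟨[mkL ym (b.lb + 1)], fun s hs => ?_⟩
      rw [xiso_coe, xf_2b (by rw [hs]; exact h) (by rw [hs]; exact h'), hs]
      rfl
  · refine ⟨[mkL yp 1, b], fun s hs => ?_⟩
    rw [xiso_coe, xf_3 (by rw [hs]; exact h.1) (by rw [hs]; exact h.2)]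
    show cons (mkL yp 1) s.1 = cons (mkL yp 1) (cons b (tail s.1))
    rw [key _ hs]
  · refine ⟨[mkL yp (b.lb + 1)], fun s hs => ?_⟩
    rw [xiso_coe, xf_4 hy (by rw [hs]; exact h), hs]
    rfl
  · refine ⟨[b], fun s hs => ?_⟩
    rw [xiso_coe, xf_5 hy (by rw [hs]; exact h)]
    exact (key _ hs).symm

theorem rule_xinv (hP : IsCone P) (hc : IsChain P H c Lo ym yp) :
    Rule (sys hP hc) (xiso hP hc)⁻¹ := by
  have hy := ym_lt_yp hc
  intro b
  have key : ∀ s : ℕ → Letter X0, s 0 = b → cons b (tail s) = s := by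
    intro s hs
    rw [← hs, cons_head_tail]
  rcases zones (fun _ => b) hy with h | h | h | h | h
  · refine ⟨[b], fun s hs => ?_⟩
    rw [xiso_inv_coe, xg_1 (by rw [hs]; exact h)]
    exact (key _ hs).symm
  · refine ⟨[mkL ym (b.lb - 1)], fun s hs => ?_⟩
    rw [xiso_inv_coe, xg_2 (by rw [hs]; exact h), hs]
    rfl
  · refine ⟨[mkL ym (-1), b], fun s hs => ?_⟩
    rw [xiso_inv_coe, xg_3 (by rw [hs]; exact h.1) (by rw [hs]; exact h.2)]
    show cons (mkL ym (-1)) s.1 = cons (mkL ym (-1)) (cons b (tail s.1))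
    rw [key _ hs]
  · by_cases h' : b.lb = 1
    · refine ⟨[], fun s hs => ?_⟩
      rw [xiso_inv_coe, xg_4a hy (by rw [hs]; exact h) (by rw [hs]; exact h')]
      rfl
    · refine ⟨[mkL yp (b.lb - 1)], fun s hs => ?_⟩
      rw [xiso_inv_coe, xg_4b hy (by rw [hs]; exact h) (by rw [hs]; exact h'), hs]
      rfl
  · refine ⟨[b], fun s hs => ?_⟩
    rw [xiso_inv_coe, xg_5 hy (by rw [hs]; exact h)]
    exact (key _ hs).symm

/-- a cut at the empty prefix: where is it? -/
theorem cut_zone (hP : IsCone P) (hc : IsChain P H c Lo ym yp) {u : Set (Letter X0)}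
    (hu : (sys hP hc).Cut [] u) :
    (∃ a0 ∈ u, ∀ a ∈ u, a ≤ a0 → a.pt < ym) ∨
    (∃ a0 ∈ u, ∀ a ∈ u, a ≤ a0 → a.pt = ym ∧ a.lb ≤ -2) ∨
    (∃ a0 ∈ u, ∀ a ∈ u, a ≤ a0 → ym < a.pt ∧ a.pt < yp) ∨
    (∃ a0 ∈ u, ∀ a ∈ u, a ≤ a0 → yp < a.pt) := by
  have hy := ym_lt_yp hc
  have hV : ∀ a ∈ u, (a.pt ∈ Lo ∧ a.lb < 0) ∨ (a.pt ∉ Lo ∧ 0 < a.lb) := fun a ha => hu.sub a ha
  by_cases h1 : ∃ a ∈ u, a.pt < ym
  · obtain ⟨a0, ha0, h⟩ := h1
    exact Or.inl ⟨a0, ha0, fun a _ haa => (letter_le_pt haa).trans_lt h⟩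
  push Not at h1
  right
  by_cases h2 : ∃ a ∈ u, a.pt = ym
  · left
    obtain ⟨a, ha, h⟩ := h2
    obtain ⟨b, hb, hba⟩ := hu.nomin a ha
    have hal : a.lb < 0 := by
      rcases hV a ha with h' | h'
      · exact h'.2
      · exact absurd (h ▸ hc.ym_mem) h'.1
    have hb1 : b.pt = ym := le_antisymm ((letter_le_pt hba.le).trans h.le) (h1 b hb)
    have hb2 : b.lb < a.lb := by
      rcases (letter_lt_iff b a).1 hba with h' | h'
      · rw [hb1, h] at h'; exact absurd h' (lt_irrefl _)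
      · exact h'.2
    refine ⟨b, hb, fun a' ha' hab => ?_⟩
    have h3 : a'.pt = ym := le_antisymm ((letter_le_pt hab).trans hb1.le) (h1 a' ha')
    refine ⟨h3, ?_⟩
    rcases hab.lt_or_eq with h' | h'
    · rcases (letter_lt_iff a' b).1 h' with h' | h'
      · rw [h3, hb1] at h'; exact absurd h' (lt_irrefl _)
      · omega
    · rw [h']; omega
  push Not at h2
  right
  have h3 : ∀ a ∈ u, ym < a.pt := fun a ha => lt_of_le_of_ne (h1 a ha) (Ne.symm (h2 a ha))
  by_cases h4 : ∃ a ∈ u, a.pt < yp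
  · left
    obtain ⟨a0, ha0, h⟩ := h4
    exact ⟨a0, ha0, fun a ha haa => ⟨h3 a ha, (letter_le_pt haa).trans_lt h⟩⟩
  push Not at h4
  right
  have h5 : ∀ n : ℕ, ∀ a ∈ u, a.pt = yp → a.lb.toNat = n → False := by
    intro n
    induction n using Nat.strong_induction_on with
    | _ n ih =>
      intro a ha hap hn
      obtain ⟨b, hb, hba⟩ := hu.nomin a ha
      have hb1 : b.pt = yp := le_antisymm ((letter_le_pt hba.le).trans hap.le) (h4 b hb)
      have hb2 : b.lb < a.lb := by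
        rcases (letter_lt_iff b a).1 hba with h' | h'
        · rw [hb1, hap] at h'; exact absurd h' (lt_irrefl _)
        · exact h'.2
      have hbl : 0 < b.lb := by
        rcases hV b hb with h' | h'
        · exact absurd (hb1 ▸ h'.1) hc.yp_mem
        · exact h'.2
      exact ih b.lb.toNat (by omega) b hb hb1 rfl
  obtain ⟨a0, ha0⟩ := hu.ne
  refine ⟨a0, ha0, fun a ha _ => lt_of_le_of_ne (h4 a ha) (fun h => h5 _ a ha h.symm rfl)⟩

theorem tame_x (hP : IsCone P) (hc : IsChain P H c Lo ym yp) :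
    (sys hP hc).Tame (xiso hP hc) := by
  have hy := ym_lt_yp hc
  intro P1 u hu
  cases P1 with
  | cons b P1 => exact (rule_x hP hc).tame_cons _ b P1 u hu
  | nil =>
    rcases cut_zone hP hc hu with h | h | h | h
    · obtain ⟨a0, ha0, h⟩ := h
      refine ⟨a0, ha0, 1, [], fun a ha haa s w hs => ?_⟩
      rw [xiso_coe, xf_1 (by rw [hs]; exact h a ha haa), one_smul]
      exact hs
    · obtain ⟨a0, ha0, h⟩ := h
      refine ⟨a0, ha0, (Multiplicative.ofAdd 1, 1), [], fun a ha haa s w hs => ?_⟩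
      obtain ⟨h1, h2⟩ := h a ha haa
      have hs' : s.1 = cons a w := hs
      rw [xiso_coe, xf_2b (by rw [hs', cons_zero]; exact h1)
        (by rw [hs', cons_zero]; omega), hs', cons_zero, tail_cons]
      show cons (mkL ym (a.lb + 1)) w = cons (mkL ((1 : K) • a.pt) (1 + a.lb)) w
      rw [one_smul, h1, add_comm]
    · obtain ⟨a0, ha0, h⟩ := h
      refine ⟨a0, ha0, 1, [mkL yp 1], fun a ha haa s w hs => ?_⟩
      obtain ⟨h1, h2⟩ := h a ha haa
      have hs' : s.1 = cons a w := hs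
      rw [xiso_coe, xf_3 (by rw [hs', cons_zero]; exact h1) (by rw [hs', cons_zero]; exact h2),
        one_smul, hs']
      rfl
    · obtain ⟨a0, ha0, h⟩ := h
      refine ⟨a0, ha0, 1, [], fun a ha haa s w hs => ?_⟩
      rw [xiso_coe, xf_5 hy (by rw [hs]; exact h a ha haa), one_smul]
      exact hs

theorem tame_xinv (hP : IsCone P) (hc : IsChain P H c Lo ym yp) :
    (sys hP hc).Tame (xiso hP hc)⁻¹ := by
  have hy := ym_lt_yp hc
  intro P1 u hu
  cases P1 with
  | cons b P1 => exact (rule_xinv hP hc).tame_cons _ b P1 u hu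
  | nil =>
    rcases cut_zone hP hc hu with h | h | h | h
    · obtain ⟨a0, ha0, h⟩ := h
      refine ⟨a0, ha0, 1, [], fun a ha haa s w hs => ?_⟩
      rw [xiso_inv_coe, xg_1 (by rw [hs]; exact h a ha haa), one_smul]
      exact hs
    · obtain ⟨a0, ha0, h⟩ := h
      refine ⟨a0, ha0, (Multiplicative.ofAdd (-1), 1), [], fun a ha haa s w hs => ?_⟩
      obtain ⟨h1, h2⟩ := h a ha haa
      have hs' : s.1 = cons a w := hs
      rw [xiso_inv_coe, xg_2 (by rw [hs', cons_zero]; exact h1), hs', cons_zero, tail_cons]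
      show cons (mkL ym (a.lb - 1)) w = cons (mkL ((1 : K) • a.pt) (-1 + a.lb)) w
      rw [one_smul, h1, add_comm, sub_eq_add_neg]
    · obtain ⟨a0, ha0, h⟩ := h
      refine ⟨a0, ha0, 1, [mkL ym (-1)], fun a ha haa s w hs => ?_⟩
      obtain ⟨h1, h2⟩ := h a ha haa
      have hs' : s.1 = cons a w := hs
      rw [xiso_inv_coe, xg_3 (by rw [hs', cons_zero]; exact h1) (by rw [hs', cons_zero]; exact h2),
        one_smul, hs']
      rfl
    · obtain ⟨a0, ha0, h⟩ := h
      refine ⟨a0, ha0, 1, [], fun a ha haa s w hs => ?_⟩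
      rw [xiso_inv_coe, xg_5 hy (by rw [hs]; exact h a ha haa), one_smul]
      exact hs

end Good

end Sh

section Auts

variable {K X0 : Type} [Group K] [LinearOrder X0] [MulAction K X0] {P : K → Prop}
  {H : Subgroup K} {c : K} {Lo : Set X0} {ym yp : X0}

/-- P4c: the shift -/
theorem exists_x (hP : IsCone P) (hc : IsChain P H c Lo ym yp) :
    ∃ x : (sys hP hc).Γ,
      (∀ s : (sys hP hc).X, s.1 0 ∈ (sys hP hc).V0 → (x.1 s).1 = cons (mkL yp 1) s.1) ∧
      (∀ (s : (sys hP hc).X), s.1 0 = mkL ym (-1) → (x.1 s).1 = tail s.1) := by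
  refine ⟨⟨Sh.xiso hP hc, ⟨(Sh.rule_x hP hc).deep, Sh.tame_x hP hc⟩,
    ⟨(Sh.rule_xinv hP hc).deep, Sh.tame_xinv hP hc⟩⟩, ?_, ?_⟩
  · intro s hs
    exact Sh.xf_3 hs.2.1 hs.2.2
  · intro s hs
    refine Sh.xf_2a ?_ ?_
    · rw [hs]; rfl
    · rw [hs]; rfl

end Auts

end Pool.Agent.Kokorin

/-! P4d: the local elements h1, h2 -/

set_option autoImplicit false

namespace Pool.Agent.Kokorin

section Auts

variable {K X0 : Type} [Group K] [LinearOrder X0] [MulAction K X0] {P : K → Prop}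
  {H : Subgroup K} {c : K} {Lo : Set X0} {ym yp : X0}

theorem smul_mem_V0 (hP : IsCone P) (hc : IsChain P H c Lo ym yp) {ρ : K} (hρ : ρ ∈ H)
    {a : Letter X0} (h : a ∈ (sys hP hc).V0) :
    ((1 : Multiplicative ℤ), ρ) • a ∈ (sys hP hc).V0 := by
  obtain ⟨h1, h2, h3⟩ := h
  refine ⟨smul_mem_V hP hc ρ h1, ?_, ?_⟩
  · have h4 := hc.mono ρ _ _ h2
    rw [hc.fix_lo ρ hρ ym le_rfl] at h4
    exact h4
  · have h4 := hc.mono ρ _ _ h3
    rw [hc.fix_hi ρ hρ yp le_rfl] at h4
    exact h4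

open Classical in
/-- the word obtained by moving the second letter when the first letter lies in `T` -/
noncomputable def hword (T : Set (Letter X0)) (ρ : K) (s : ℕ → Letter X0) : ℕ → Letter X0 :=
  if s 0 ∈ T then cons (s 0) (cons (((1 : Multiplicative ℤ), ρ) • (s 1)) (tail (tail s))) else s

theorem hword_pos {T : Set (Letter X0)} {b : Letter X0} (hb : b ∈ T) (ρ : K) (a : Letter X0)
    (w : ℕ → Letter X0) :
    hword T ρ (cons b (cons a w)) = cons b (cons (((1 : Multiplicative ℤ), ρ) • a) w) := by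
  have h : (cons b (cons a w)) 0 ∈ T := hb
  unfold hword
  rw [if_pos h]
  rfl

theorem hword_neg {T : Set (Letter X0)} {s : ℕ → Letter X0} (hb : s 0 ∉ T) (ρ : K) :
    hword T ρ s = s := by
  unfold hword
  rw [if_neg hb]

theorem hword_head (T : Set (Letter X0)) (ρ : K) (s : ℕ → Letter X0) :
    hword T ρ s 0 = s 0 := by
  by_cases h : s 0 ∈ T
  · unfold hword
    rw [if_pos h]
    rfl
  · rw [hword_neg h]

theorem two_letters (s : ℕ → Letter X0) : cons (s 0) (cons (s 1) (tail (tail s))) = s := by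
  funext n
  rcases n with _ | _ | n <;> rfl

theorem hword_mul (T : Set (Letter X0)) (ρ ρ' : K) (s : ℕ → Letter X0) :
    hword T (ρ * ρ') s = hword T ρ (hword T ρ' s) := by
  by_cases h : s 0 ∈ T
  · rw [← two_letters s, hword_pos h, hword_pos h, hword_pos h, ← mul_smul, Prod.mk_mul_mk,
      one_mul]
  · rw [hword_neg h, hword_neg h, hword_neg h]

theorem hword_one (T : Set (Letter X0)) (s : ℕ → Letter X0) :
    hword T (1 : K) s = s := by
  by_cases h : s 0 ∈ T
  · have e : ((1 : Multiplicative ℤ), (1 : K)) = 1 := rfl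
    rw [← two_letters s, hword_pos h, e, one_smul]
  · rw [hword_neg h]

theorem hword_mem (hP : IsCone P) (hc : IsChain P H c Lo ym yp) (T : Set (Letter X0)) {ρ : K}
    (hρ : ρ ∈ H) (s : (sys hP hc).X) :
    hword T ρ s.1 0 ∈ (sys hP hc).V ∧ ∀ i, hword T ρ s.1 (i + 1) ∈ (sys hP hc).V0 := by
  refine ⟨?_, ?_⟩
  · rw [hword_head]; exact s.2.1
  · by_cases h : s.1 0 ∈ T
    · intro i
      unfold hword
      rw [if_pos h]
      cases i with
      | zero => exact smul_mem_V0 hP hc hρ (s.2.2 0)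
      | succ i => exact s.2.2 (i + 1)
    · rw [hword_neg h]; exact s.2.2

/-- the local map on words -/
noncomputable def hfun (hP : IsCone P) (hc : IsChain P H c Lo ym yp) (T : Set (Letter X0)) (ρ : K)
    (hρ : ρ ∈ H) (s : (sys hP hc).X) : (sys hP hc).X :=
  ⟨hword T ρ s.1, hword_mem hP hc T hρ s⟩

theorem hfun_lt (hP : IsCone P) (hc : IsChain P H c Lo ym yp) (T : Set (Letter X0)) (ρ : K)
    (hρ : ρ ∈ H) {s t : (sys hP hc).X} (h : s < t) : hfun hP hc T ρ hρ s < hfun hP hc T ρ hρ t := by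
  have h1 : s.1 < t.1 := h
  have h2 := (word_lt_iff (s := s.1) (t := t.1)).1 h1
  change toLex (hword T ρ s.1) < toLex (hword T ρ t.1)
  rw [word_lt_iff, hword_head, hword_head]
  rcases h2 with h2 | ⟨h2, h3⟩
  · exact Or.inl h2
  · right
    refine ⟨h2, ?_⟩
    by_cases h4 : s.1 0 ∈ T
    · have h5 : t.1 0 ∈ T := by rw [← h2]; exact h4
      have e1 : tail (hword T ρ s.1) =
          cons (((1 : Multiplicative ℤ), ρ) • (s.1 1)) (tail (tail s.1)) := by
        unfold hword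
        rw [if_pos h4]; rfl
      have e2 : tail (hword T ρ t.1) =
          cons (((1 : Multiplicative ℤ), ρ) • (t.1 1)) (tail (tail t.1)) := by
        unfold hword
        rw [if_pos h5]; rfl
      rw [e1, e2]
      refine cons_lt_cons.2 ?_
      rw [word_lt_iff] at h3
      rcases h3 with h3 | ⟨h3, h6⟩
      · left; exact (sys hP hc).mono _ _ _ h3
      · right
        refine ⟨?_, h6⟩
        have h7 : s.1 1 = t.1 1 := h3
        rw [h7]
    · have h5 : t.1 0 ∉ T := by rw [← h2]; exact h4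
      rw [hword_neg h4, hword_neg h5]
      exact h3

theorem hfun_hfun (hP : IsCone P) (hc : IsChain P H c Lo ym yp) (T : Set (Letter X0)) (ρ ρ' : K)
    (hρ : ρ ∈ H) (hρ' : ρ' ∈ H) (h1 : ρ * ρ' = 1) (s : (sys hP hc).X) :
    hfun hP hc T ρ hρ (hfun hP hc T ρ' hρ' s) = s := by
  apply Subtype.ext
  change hword T ρ (hword T ρ' s.1) = s.1
  rw [← hword_mul, h1, hword_one]

/-- the local map as an automorphism -/
noncomputable def hiso (hP : IsCone P) (hc : IsChain P H c Lo ym yp) (T : Set (Letter X0)) (ρ : K)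
    (hρ : ρ ∈ H) : (sys hP hc).X ≃o (sys hP hc).X where
  toFun := hfun hP hc T ρ hρ
  invFun := hfun hP hc T ρ⁻¹ (H.inv_mem hρ)
  left_inv s := hfun_hfun hP hc T _ _ _ _ (inv_mul_cancel ρ) s
  right_inv s := hfun_hfun hP hc T _ _ _ _ (mul_inv_cancel ρ) s
  map_rel_iff' := by
    intro s t
    have h : StrictMono (hfun hP hc T ρ hρ) := fun s t h => hfun_lt hP hc T ρ hρ h
    exact h.le_iff_le

theorem hiso_val (hP : IsCone P) (hc : IsChain P H c Lo ym yp) (T : Set (Letter X0)) (ρ : K)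
    (hρ : ρ ∈ H) (s : (sys hP hc).X) : (hiso hP hc T ρ hρ s).1 = hword T ρ s.1 := rfl

theorem hiso_inv (hP : IsCone P) (hc : IsChain P H c Lo ym yp) (T : Set (Letter X0)) (ρ : K)
    (hρ : ρ ∈ H) : (hiso hP hc T ρ hρ)⁻¹ = hiso hP hc T ρ⁻¹ (H.inv_mem hρ) := by
  apply RelIso.ext
  intro s
  rfl

theorem good_hiso (hP : IsCone P) (hc : IsChain P H c Lo ym yp) (T : Set (Letter X0))
    (hT : ∀ B : Set (Letter X0), B ⊆ T → B.Nonempty → ∃ b ∈ B, ∀ b' ∈ B, b ≤ b') (ρ : K)
    (hρ : ρ ∈ H) : (sys hP hc).Good (hiso hP hc T ρ hρ) := by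
  constructor
  · refine ⟨2, 0, ?_⟩
    intro Q hQ hl
    match Q, hl with
    | b :: b2 :: Q, hl =>
      by_cases hb : b ∈ T
      · refine ⟨b :: (((1 : Multiplicative ℤ), ρ) • b2) :: Q, by simp, ?_⟩
        intro s w hs
        rw [hiso_val, hs]
        exact hword_pos hb ρ b2 (app Q w)
      · refine ⟨b :: b2 :: Q, by simp, ?_⟩
        intro s w hs
        rw [hiso_val, hs]
        exact hword_neg hb ρ
  · intro Q u hcut
    match Q, hcut with
    | [], hcut =>
      have h1 : ∃ a0 ∈ u, ∀ a ∈ u, a ≤ a0 → a ∉ T := by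
        by_cases hne : (u ∩ T).Nonempty
        · obtain ⟨t, ht, hmin⟩ := hT (u ∩ T) Set.inter_subset_right hne
          obtain ⟨a0, ha0, hlt⟩ := hcut.nomin t ht.1
          refine ⟨a0, ha0, ?_⟩
          intro a ha hle haT
          have h2 := hmin a ⟨ha, haT⟩
          exact absurd (lt_of_le_of_lt hle hlt) (not_lt.mpr h2)
        · obtain ⟨a0, ha0⟩ := hcut.ne
          refine ⟨a0, ha0, ?_⟩
          intro a ha _ haT
          exact hne ⟨a, ha, haT⟩
      obtain ⟨a0, ha0, h2⟩ := h1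
      refine ⟨a0, ha0, 1, [], ?_⟩
      intro a ha hle s w hs
      rw [hiso_val, hs, one_smul]
      exact hword_neg (h2 a ha hle) ρ
    | [b], hcut =>
      obtain ⟨a0, ha0⟩ := hcut.ne
      refine ⟨a0, ha0, ?_⟩
      by_cases hb : b ∈ T
      · refine ⟨((1 : Multiplicative ℤ), ρ), [b], ?_⟩
        intro a ha hle s w hs
        rw [hiso_val, hs]
        exact hword_pos hb ρ a w
      · refine ⟨1, [b], ?_⟩
        intro a ha hle s w hs
        rw [hiso_val, hs, one_smul]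
        exact hword_neg hb ρ
    | b :: b2 :: Q, hcut =>
      obtain ⟨a0, ha0⟩ := hcut.ne
      refine ⟨a0, ha0, ?_⟩
      by_cases hb : b ∈ T
      · refine ⟨1, b :: (((1 : Multiplicative ℤ), ρ) • b2) :: Q, ?_⟩
        intro a ha hle s w hs
        rw [hiso_val, hs, one_smul]
        exact hword_pos hb ρ b2 (app Q (cons a w))
      · refine ⟨1, b :: b2 :: Q, ?_⟩
        intro a ha hle s w hs
        rw [hiso_val, hs, one_smul]
        exact hword_neg hb ρ

/-- P4d: local elements -/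
theorem exists_h (hP : IsCone P) (hc : IsChain P H c Lo ym yp) (T : Set (Letter X0))
    (hT : ∀ B : Set (Letter X0), B ⊆ T → B.Nonempty → ∃ b ∈ B, ∀ b' ∈ B, b ≤ b') (ρ : K)
    (hρ : ρ ∈ H) :
    ∃ h : (sys hP hc).Γ,
      (∀ s : (sys hP hc).X, s.1 0 ∈ T → (h.1 s).1 =
        cons (s.1 0) (cons (((1 : Multiplicative ℤ), ρ) • (s.1 1)) (tail (tail s.1)))) ∧
      (∀ s : (sys hP hc).X, s.1 0 ∉ T → h.1 s = s) := by
  refine ⟨⟨hiso hP hc T ρ hρ, good_hiso hP hc T hT ρ hρ, ?_⟩, ?_, ?_⟩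
  · rw [hiso_inv]
    exact good_hiso hP hc T hT ρ⁻¹ (H.inv_mem hρ)
  · intro s hs
    change hword T ρ s.1 = _
    unfold hword
    rw [if_pos hs]
  · intro s hs
    apply Subtype.ext
    exact hword_neg hs ρ

end Auts

end Pool.Agent.Kokorin

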