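import Pool.Agent.Lib.MP_ab86ea_al.Defs

/-! P3: the chain of lower sets, ordered by stabilisers -/

set_option autoImplicit false

namespace Pool.Agent.Kokorin

/-! ### the order of a cone -/

/-- the linear order with positive cone `P` -/
@[instance_reducible]
noncomputable def coneOrder {G : Type} [Group G] {P : G → Prop} (hP : IsCone P) :
    LinearOrder G where
  le a b := a = b ∨ P (a⁻¹ * b)
  lt a b := P (a⁻¹ * b)
  le_refl a := Or.inl rfl
  le_trans := by
    rintro a b c (rfl | h) (rfl | h')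
    · exact Or.inl rfl
    · exact Or.inr h'
    · exact Or.inr h
    · right
      have := hP.mul _ _ h h'
      rwa [mul_assoc, mul_inv_cancel_left] at this
  lt_iff_le_not_ge := by
    intro a b
    constructor
    · intro h
      refine ⟨Or.inr h, ?_⟩
      rintro (rfl | h')
      · rw [inv_mul_cancel] at h; exact hP.one h
      · have := hP.mul _ _ h h'
        rw [mul_assoc, mul_inv_cancel_left, inv_mul_cancel] at this
        exact hP.one this
    · rintro ⟨rfl | h, h'⟩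
      · exact absurd (Or.inl rfl) h'
      · exact h
  le_antisymm := by
    rintro a b (rfl | h) (h' | h')
    · rfl
    · rfl
    · exact h'.symm
    · have := hP.mul _ _ h h'
      rw [mul_assoc, mul_inv_cancel_left, inv_mul_cancel] at this
      exact absurd this hP.one
  le_total := by
    intro a b
    by_cases h : a = b
    · exact Or.inl (Or.inl h)
    · have h1 : a⁻¹ * b ≠ 1 := by
        intro h2
        exact h (inv_mul_eq_one.1 h2)
      rcases hP.total _ h1 with h2 | h2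
      · exact Or.inl (Or.inr h2)
      · right; right
        rwa [mul_inv_rev, inv_inv] at h2
  toDecidableLE := Classical.decRel _

theorem coneOrder_mulLeft {G : Type} [Group G] {P : G → Prop} (hP : IsCone P) :
    @MulLeftMono G _ (coneOrder hP).toLE := by
  refine ⟨?_⟩
  rintro c a b (h | h)
  · left; rw [h]
  · right
    have e : (c * a)⁻¹ * (c * b) = a⁻¹ * b := by group
    change P ((c * a)⁻¹ * (c * b))
    rwa [e]

theorem coneOrder_mulRight {G : Type} [Group G] {P : G → Prop} (hP : IsCone P) :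
    @MulRightMono G _ (coneOrder hP).toLE := by
  refine ⟨?_⟩
  rintro c a b (h | h)
  · left; rw [h]
  · right
    have e : (a * c)⁻¹ * (b * c) = c⁻¹ * (a⁻¹ * b) * c⁻¹⁻¹ := by group
    change P ((a * c)⁻¹ * (b * c))
    rw [e]
    exact hP.conj _ _ h

theorem coneOrder_one_lt {G : Type} [Group G] {P : G → Prop} (hP : IsCone P) (g : G) :
    @LT.lt G (coneOrder hP).toLT 1 g ↔ P g := by
  change P (1⁻¹ * g) ↔ P g
  rw [inv_one, one_mul]

/-! ### lower sets -/

section Lower

set_option linter.unusedSectionVars false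

variable {K : Type} [Group K] [LinearOrder K] [MulLeftMono K] [MulRightMono K]

/-- left translation of a lower set -/
noncomputable def lm (k : K) : LowerSet K ≃o LowerSet K := LowerSet.map (OrderIso.mulLeft k)

theorem mem_lm {k g : K} {D : LowerSet K} : g ∈ lm k D ↔ k⁻¹ * g ∈ D := LowerSet.mem_map

theorem lm_one (D : LowerSet K) : lm 1 D = D := by
  ext g
  change g ∈ lm 1 D ↔ g ∈ D
  rw [mem_lm, inv_one, one_mul]

theorem lm_mul (k k' : K) (D : LowerSet K) : lm (k * k') D = lm k (lm k' D) := by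
  ext g
  change g ∈ lm _ D ↔ g ∈ lm k (lm k' D)
  rw [mem_lm, mem_lm, mem_lm, mul_inv_rev, mul_assoc]

theorem lm_mono {k k' : K} (h : k ≤ k') (D : LowerSet K) : lm k D ≤ lm k' D := by
  intro g hg
  have hg : g ∈ lm k D := hg
  change g ∈ lm k' D
  rw [mem_lm] at hg ⊢
  exact D.lower (mul_le_mul_left (inv_le_inv_iff.2 h) g) hg

/-- conjugation of a lower set -/
noncomputable def cm (k : K) : LowerSet K ≃o LowerSet K :=
  LowerSet.map ((OrderIso.mulLeft k).trans (OrderIso.mulRight k⁻¹))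

theorem mem_cm {k g : K} {D : LowerSet K} : g ∈ cm k D ↔ k⁻¹ * g * k ∈ D := by
  have h : ((OrderIso.mulLeft k).trans (OrderIso.mulRight k⁻¹)).symm g = k⁻¹ * g * k := by
    rw [OrderIso.symm_apply_eq]
    change g = k * (k⁻¹ * g * k) * k⁻¹
    group
  rw [cm, LowerSet.mem_map, h]

/-- the lower set generated by the stabiliser -/
def St (D : LowerSet K) : LowerSet K :=
  ⟨{g | ∃ s, lm s D = D ∧ g ≤ s}, by
    rintro a b hab ⟨s, h1, h2⟩
    exact ⟨s, h1, hab.trans h2⟩⟩

theorem mem_St {D : LowerSet K} {g : K} : g ∈ St D ↔ ∃ s, lm s D = D ∧ g ≤ s := Iff.rfl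

theorem St_lm (k : K) (D : LowerSet K) : St (lm k D) = cm k (St D) := by
  ext g
  change g ∈ St (lm k D) ↔ g ∈ cm k (St D)
  rw [mem_cm, mem_St, mem_St]
  constructor
  · rintro ⟨s, h1, h2⟩
    refine ⟨k⁻¹ * s * k, ?_, mul_le_mul_left (mul_le_mul_right h2 _) _⟩
    rw [mul_assoc, lm_mul, lm_mul, h1, ← lm_mul, inv_mul_cancel, lm_one]
  · rintro ⟨s, h1, h2⟩
    refine ⟨k * s * k⁻¹, ?_, ?_⟩
    · rw [lm_mul, ← lm_mul k⁻¹, inv_mul_cancel, lm_one, lm_mul, h1]
    · have h3 := mul_le_mul_left (mul_le_mul_right h2 k) k⁻¹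
      have e : k * (k⁻¹ * g * k) * k⁻¹ = g := by group
      rwa [e] at h3

/-- an element below which and below whose inverse there are stabilising elements stabilises -/
theorem lm_eq_of_mem_St {D : LowerSet K} {h : K} (h1 : h ∈ St D) (h2 : h⁻¹ ∈ St D) :
    lm h D = D := by
  obtain ⟨s, hs, hs'⟩ := h1
  obtain ⟨t, ht, ht'⟩ := h2
  apply le_antisymm
  · calc lm h D ≤ lm s D := lm_mono hs' D
      _ = D := hs
  · have h3 : lm h⁻¹ D ≤ D := (lm_mono ht' D).trans ht.le
    have h4 := (lm h).monotone h3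
    rwa [← lm_mul, mul_inv_cancel, lm_one] at h4

theorem lm_conv {k h : K} {D : LowerSet K} (hk : 1 < k) (hh : 1 < h) (e : lm (k * h) D = D) :
    lm h D = D := by
  apply le_antisymm
  · calc lm h D ≤ lm (k * h) D := lm_mono (le_mul_of_one_le_left' hk.le) D
      _ = D := e
  · calc D = lm 1 D := (lm_one D).symm
      _ ≤ lm h D := lm_mono hh.le D

/-- a point of the chain -/
structure Pt (K : Type) [LinearOrder K] : Type where
  side : Bool
  set : LowerSet K

/-- the key of a point -/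
noncomputable def Pt.key (v : Pt K) :
    Lex (((LowerSet K)ᵒᵈ ×ₗ LowerSet K) ⊕ (LowerSet K ×ₗ LowerSet K)) :=
  match v.side with
  | false => toLex (Sum.inl (toLex (OrderDual.toDual (St v.set), v.set)))
  | true => toLex (Sum.inr (toLex (St v.set, v.set)))

theorem Pt.key_injective : Function.Injective (Pt.key (K := K)) := by
  rintro ⟨a, D⟩ ⟨b, E⟩ h
  cases a <;> cases b
  · have h1 : (Sum.inl (toLex (OrderDual.toDual (St D), D)) :
      ((LowerSet K)ᵒᵈ ×ₗ LowerSet K) ⊕ (LowerSet K ×ₗ LowerSet K)) =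
        Sum.inl (toLex (OrderDual.toDual (St E), E)) := h
    have h2 := Sum.inl.inj h1
    have h3 : D = E := congrArg (fun x => (ofLex x).2) h2
    rw [h3]
  · exact absurd h (by intro h; exact Sum.inl_ne_inr h)
  · exact absurd h (by intro h; exact Sum.inr_ne_inl h)
  · have h1 : (Sum.inr (toLex (St D, D)) :
      ((LowerSet K)ᵒᵈ ×ₗ LowerSet K) ⊕ (LowerSet K ×ₗ LowerSet K)) =
        Sum.inr (toLex (St E, E)) := h
    have h2 := Sum.inr.inj h1
    have h3 : D = E := congrArg (fun x => (ofLex x).2) h2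
    rw [h3]

noncomputable instance : LinearOrder (Pt K) := LinearOrder.lift' Pt.key Pt.key_injective

noncomputable instance : MulAction K (Pt K) where
  smul k v := ⟨v.side, lm k v.set⟩
  one_smul := by
    rintro ⟨a, D⟩
    change Pt.mk a (lm 1 D) = _
    rw [lm_one]
  mul_smul := by
    rintro k k' ⟨a, D⟩
    change Pt.mk a (lm (k * k') D) = Pt.mk a (lm k (lm k' D))
    rw [lm_mul]

theorem smul_mk (k : K) (a : Bool) (D : LowerSet K) : k • Pt.mk a D = Pt.mk a (lm k D) := rfl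

theorem lo_lt_lo {D E : LowerSet K} :
    Pt.mk false D < Pt.mk false E ↔ St E < St D ∨ (St D = St E ∧ D < E) := by
  change (toLex (Sum.inl (toLex (OrderDual.toDual (St D), D))) :
      Lex (((LowerSet K)ᵒᵈ ×ₗ LowerSet K) ⊕ (LowerSet K ×ₗ LowerSet K))) <
      toLex (Sum.inl (toLex (OrderDual.toDual (St E), E))) ↔ _
  rw [Sum.Lex.inl_lt_inl_iff, Prod.Lex.toLex_lt_toLex]
  rfl

theorem hi_lt_hi {D E : LowerSet K} :
    Pt.mk true D < Pt.mk true E ↔ St D < St E ∨ (St D = St E ∧ D < E) := by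
  change (toLex (Sum.inr (toLex (St D, D))) :
      Lex (((LowerSet K)ᵒᵈ ×ₗ LowerSet K) ⊕ (LowerSet K ×ₗ LowerSet K))) <
      toLex (Sum.inr (toLex (St E, E))) ↔ _
  rw [Sum.Lex.inr_lt_inr_iff, Prod.Lex.toLex_lt_toLex]

theorem lo_lt_hi {D E : LowerSet K} : Pt.mk false D < Pt.mk true E := by
  change (toLex (Sum.inl (toLex (OrderDual.toDual (St D), D))) :
      Lex (((LowerSet K)ᵒᵈ ×ₗ LowerSet K) ⊕ (LowerSet K ×ₗ LowerSet K))) <
      toLex (Sum.inr (toLex (St E, E)))
  exact Sum.Lex.inl_lt_inr _ _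

/-- the lower set generated by a subgroup -/
def lowH (H : Subgroup K) : LowerSet K :=
  ⟨{g | ∃ h ∈ H, g ≤ h}, by
    rintro a b hab ⟨s, h1, h2⟩
    exact ⟨s, h1, hab.trans h2⟩⟩

theorem mem_lowH {H : Subgroup K} {g : K} : g ∈ lowH H ↔ ∃ h ∈ H, g ≤ h := Iff.rfl

theorem lm_lowH {H : Subgroup K} {h : K} (hh : h ∈ H) : lm h (lowH H) = lowH H := by
  ext g
  change g ∈ lm h (lowH H) ↔ g ∈ lowH H
  rw [mem_lm, mem_lowH, mem_lowH]
  constructor
  · rintro ⟨k, h1, h2⟩
    refine ⟨h * k, H.mul_mem hh h1, ?_⟩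
    have h3 := mul_le_mul_right h2 h
    rwa [mul_inv_cancel_left] at h3
  · rintro ⟨k, h1, h2⟩
    exact ⟨h⁻¹ * k, H.mul_mem (H.inv_mem hh) h1, mul_le_mul_right h2 _⟩

theorem St_lowH (H : Subgroup K) : St (lowH H) = lowH H := by
  ext g
  change g ∈ St (lowH H) ↔ g ∈ lowH H
  rw [mem_St, mem_lowH]
  constructor
  · rintro ⟨s, h1, h2⟩
    have h3 : s ∈ lm s (lowH H) := by
      rw [mem_lm, inv_mul_cancel, mem_lowH]
      exact ⟨1, H.one_mem, le_rfl⟩
    rw [h1, mem_lowH] at h3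
    obtain ⟨k, h4, h5⟩ := h3
    exact ⟨k, h4, h2.trans h5⟩
  · rintro ⟨k, h1, h2⟩
    exact ⟨k, lm_lowH h1, h2⟩

theorem cm_lowH {H : Subgroup K} {c : K} (hn : ∀ h, h ∈ H ↔ c * h * c⁻¹ ∈ H) :
    cm c (lowH H) = lowH H := by
  ext g
  change g ∈ cm c (lowH H) ↔ g ∈ lowH H
  rw [mem_cm, mem_lowH, mem_lowH]
  constructor
  · rintro ⟨k, h1, h2⟩
    refine ⟨c * k * c⁻¹, (hn k).1 h1, ?_⟩
    have h3 := mul_le_mul_left (mul_le_mul_right h2 c) c⁻¹
    have e : c * (c⁻¹ * g * c) * c⁻¹ = g := by group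
    rwa [e] at h3
  · rintro ⟨k, h1, h2⟩
    refine ⟨c⁻¹ * k * c, ?_, mul_le_mul_left (mul_le_mul_right h2 _) _⟩
    rw [hn]
    have e : c * (c⁻¹ * k * c) * c⁻¹ = k := by group
    rwa [e]

theorem lowH_lt {H : Subgroup K} {c : K} (hconv : ∀ g h, 1 < g → h ∈ H → g < h → g ∈ H)
    (hc : 1 < c) (hcH : c ∉ H) : lowH H < lm c (lowH H) := by
  rw [lt_iff_le_and_ne]
  constructor
  · calc lowH H = lm 1 (lowH H) := (lm_one _).symm
      _ ≤ lm c (lowH H) := lm_mono hc.le _
  · intro e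
    have h3 : c ∈ lm c (lowH H) := by
      rw [mem_lm, inv_mul_cancel, mem_lowH]
      exact ⟨1, H.one_mem, le_rfl⟩
    rw [← e, mem_lowH] at h3
    obtain ⟨k, h4, h5⟩ := h3
    rcases h5.lt_or_eq with h5 | h5
    · exact hcH (hconv c k hc h4 h5)
    · exact hcH (h5 ▸ h4)

theorem isChain_pt {P : K → Prop} (hP : ∀ k, P k ↔ 1 < k) {H : Subgroup K} {c : K}
    (hconv : ∀ g h, 1 < g → h ∈ H → g < h → g ∈ H) (hc : 1 < c) (hcH : c ∉ H)
    (hn : ∀ h, h ∈ H ↔ c * h * c⁻¹ ∈ H) :
    IsChain P H c {v : Pt K | v.side = false} (Pt.mk false (lowH H)) (Pt.mk true (lowH H)) where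
  mono := by
    rintro k ⟨a, D⟩ ⟨b, E⟩ h
    rw [smul_mk, smul_mk]
    cases a <;> cases b
    · rw [lo_lt_lo] at h ⊢
      rw [St_lm, St_lm]
      rcases h with h | ⟨h, h'⟩
      · left; exact (cm k).strictMono h
      · right; exact ⟨by rw [h], (lm k).strictMono h'⟩
    · exact lo_lt_hi
    · exact absurd h (lo_lt_hi.le.not_gt)
    · rw [hi_lt_hi] at h ⊢
      rw [St_lm, St_lm]
      rcases h with h | ⟨h, h'⟩
      · left; exact (cm k).strictMono h
      · right; exact ⟨by rw [h], (lm k).strictMono h'⟩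
  conv := by
    rintro k h ⟨a, D⟩ hk hh e
    rw [smul_mk] at e ⊢
    have e1 : lm (k * h) D = D := congrArg Pt.set e
    rw [lm_conv ((hP k).1 hk) ((hP h).1 hh) e1]
  faith := by
    intro k hk
    refine ⟨Pt.mk false (LowerSet.Iic 1), ?_⟩
    intro e
    have e1 : lm k (LowerSet.Iic 1) = LowerSet.Iic 1 := congrArg Pt.set e
    have h1 : k ∈ lm k (LowerSet.Iic 1) := by
      rw [mem_lm, inv_mul_cancel]; exact LowerSet.mem_Iic_iff.2 le_rfl
    rw [e1, LowerSet.mem_Iic_iff] at h1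
    have h2 : (1 : K) ∈ LowerSet.Iic (1 : K) := LowerSet.mem_Iic_iff.2 le_rfl
    rw [← e1, mem_lm, mul_one, LowerSet.mem_Iic_iff] at h2
    exact hk (le_antisymm h1 (by simpa using h2))
  lo_smul := by
    rintro k ⟨a, D⟩
    rfl
  lo_lt := by
    rintro ⟨a, D⟩ ha ⟨b, E⟩ hb
    have ha : a = false := ha
    have hb : ¬ b = false := hb
    rw [Bool.not_eq_false] at hb
    subst ha hb
    exact lo_lt_hi
  ym_mem := rfl
  yp_mem := by
    intro h
    exact Bool.noConfusion (h : true = false)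
  fix_lo := by
    rintro h hh ⟨a, D⟩ hv
    cases a
    · have h1 : St (lowH H) ≤ St D := by
        rcases hv.lt_or_eq with h2 | h2
        · rw [lo_lt_lo] at h2
          rcases h2 with h2 | ⟨h2, -⟩
          · exact h2.le
          · exact h2.ge
        · have : D = lowH H := congrArg Pt.set h2
          rw [this]
      rw [smul_mk, lm_eq_of_mem_St (h1 ?_) (h1 ?_)]
      · exact ⟨h, lm_lowH hh, le_rfl⟩
      · exact ⟨h⁻¹, lm_lowH (H.inv_mem hh), le_rfl⟩
    · exact absurd hv (not_le.2 lo_lt_hi)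
  fix_hi := by
    rintro h hh ⟨a, D⟩ hv
    cases a
    · exact absurd hv (not_le.2 lo_lt_hi)
    · have h1 : St (lowH H) ≤ St D := by
        rcases hv.lt_or_eq with h2 | h2
        · rw [hi_lt_hi] at h2
          rcases h2 with h2 | ⟨h2, -⟩
          · exact h2.le
          · exact h2.le
        · have : lowH H = D := congrArg Pt.set h2
          rw [this]
      rw [smul_mk, lm_eq_of_mem_St (h1 ?_) (h1 ?_)]
      · exact ⟨h, lm_lowH hh, le_rfl⟩
      · exact ⟨h⁻¹, lm_lowH (H.inv_mem hh), le_rfl⟩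
  ym_lt := by
    rw [smul_mk, lo_lt_lo, St_lm, St_lowH, cm_lowH hn]
    exact Or.inr ⟨rfl, lowH_lt hconv hc hcH⟩
  yp_lt := by
    rw [smul_mk, hi_lt_hi, St_lm, St_lowH, cm_lowH hn]
    exact Or.inr ⟨rfl, lowH_lt hconv hc hcH⟩

end Lower

theorem exists_chain {K : Type} [Group K] {P : K → Prop} (hP : IsCone P) {H : Subgroup K} {c : K}
    (hconv : ∀ g h, P g → h ∈ H → P (g⁻¹ * h) → g ∈ H) (hc : P c) (hcH : c ∉ H)
    (hn : ∀ h, h ∈ H ↔ c * h * c⁻¹ ∈ H) :
    ∃ (X0 : Type) (_ : LinearOrder X0) (_ : MulAction K X0) (Lo : Set X0) (ym yp : X0),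
      IsChain P H c Lo ym yp := by
  let _ := coneOrder hP
  have : MulLeftMono K := coneOrder_mulLeft hP
  have : MulRightMono K := coneOrder_mulRight hP
  refine ⟨Pt K, inferInstance, inferInstance, _, _, _,
    isChain_pt (fun k => (coneOrder_one_lt hP k).symm) ?_ ((coneOrder_one_lt hP c).2 hc) hcH hn⟩
  intro g h h1 h2 h3
  exact hconv g h ((coneOrder_one_lt hP g).1 h1) h2 h3

end Pool.Agent.Kokorin
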