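import Mathlib

/-! Kokorin's problem: definitions.  See the blueprint `ab86ea_blueprint.md`. -/

set_option autoImplicit false

namespace Pool.Agent.Kokorin

/-- `P` is the set of elements `> 1` of a bi-invariant total order on `G`. -/
structure IsCone {G : Type} [Group G] (P : G → Prop) : Prop where
  one : ¬ P 1
  mul : ∀ a b, P a → P b → P (a * b)
  conj : ∀ g a, P a → P (g * a * g⁻¹)
  total : ∀ a, a ≠ 1 → P a ∨ P a⁻¹

/-- `SS a b`: `b` is a non-empty product of conjugates of `a`. -/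
inductive SS {G : Type} [Group G] (a : G) : G → Prop
  | conj (x : G) : SS a (x * a * x⁻¹)
  | mul (b c : G) : SS a b → SS a c → SS a (b * c)

/-- `b` and `c` agree modulo a convex subgroup `H` normalised by `c`, and `1 < c ∉ H`. -/
def KeyPair {G : Type} [Group G] (P : G → Prop) (b c : G) : Prop :=
  ∃ H : Subgroup G, (∀ g h, P g → h ∈ H → P (g⁻¹ * h) → g ∈ H) ∧
    P c ∧ c ∉ H ∧ (∀ h, h ∈ H ↔ c * h * c⁻¹ ∈ H) ∧ b⁻¹ * c ∈ H

/-- The equation solved in the key lemma. -/
def Eqn {G : Type} [Group G] (b c : G) : Prop :=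
  ∃ x y z : G, (x * b * x⁻¹) * b = (y * c * y⁻¹) * (z * c * z⁻¹)

/-! ### words -/

/-- prepend a letter -/
def cons {A : Type} (a : A) (s : ℕ → A) : ℕ → A
  | 0 => a
  | n + 1 => s n

/-- drop the first letter -/
def tail {A : Type} (s : ℕ → A) : ℕ → A := fun n => s (n + 1)

/-- prepend a list of letters -/
def app {A : Type} : List A → (ℕ → A) → (ℕ → A)
  | [], s => s
  | a :: l, s => cons a (app l s)

/-- A system: an alphabet `A` (a chain) with an action of a group `𝒢` with a cone `pos` by order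
automorphisms with convex stabilisers, a set `V` of allowed first letters and a set `V0 ⊆ V` of
allowed later letters; `V0` has no minimum. -/
structure Sys (A 𝒢 : Type) [LinearOrder A] [Group 𝒢] [MulAction 𝒢 A] where
  V : Set A
  V0 : Set A
  pos : 𝒢 → Prop
  sub : ∀ a, a ∈ V0 → a ∈ V
  nomin : ∀ a ∈ V0, ∃ b ∈ V0, b < a
  ne : ∃ a, a ∈ V0
  cone : IsCone pos
  mono : ∀ (g : 𝒢) (a b : A), a < b → g • a < g • b
  conv : ∀ (g h : 𝒢) (a : A), pos g → pos h → (g * h) • a = a → h • a = a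

namespace Sys

variable {A 𝒢 : Type} [LinearOrder A] [Group 𝒢] [MulAction 𝒢 A] (S : Sys A 𝒢)

/-- the chain of infinite words (lexicographic order) -/
def X : Type := {s : Lex (ℕ → A) // s 0 ∈ S.V ∧ ∀ i, s (i + 1) ∈ S.V0}

noncomputable instance : LinearOrder S.X :=
  inferInstanceAs (LinearOrder {s : Lex (ℕ → A) // s 0 ∈ S.V ∧ ∀ i, s (i + 1) ∈ S.V0})

/-- letters allowed after a prefix -/
def after : List A → Set A
  | [] => S.V
  | _ :: _ => S.V0

/-- valid prefixes -/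
def Pre : List A → Prop
  | [] => True
  | a :: l => a ∈ S.V ∧ ∀ b ∈ l, b ∈ S.V0

/-- `w` consists of later letters -/
def Wd (w : ℕ → A) : Prop := ∀ i, w i ∈ S.V0

/-- `(P, u)` is a cut: `u` is a non-empty upper set without minimum in the set of letters allowed
after `P`. -/
structure Cut (P : List A) (u : Set A) : Prop where
  pre : S.Pre P
  sub : ∀ a ∈ u, a ∈ S.after P
  ne : ∃ a, a ∈ u
  up : ∀ a ∈ u, ∀ b ∈ S.after P, a ≤ b → b ∈ u
  nomin : ∀ a ∈ u, ∃ b ∈ u, b < a

/-- condition (D): deep prefixes are rewritten -/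
def Deep (f : S.X ≃o S.X) : Prop :=
  ∃ d e : ℕ, ∀ P : List A, S.Pre P → d ≤ P.length → ∃ P' : List A, P.length ≤ P'.length + e ∧
    ∀ (s : S.X) (w : ℕ → A), s.1 = app P w → (f s).1 = app P' w

/-- `f` acts on words `P a w` by `P a w ↦ P' (g • a) w`. -/
def Germ (f : S.X ≃o S.X) (P : List A) (g : 𝒢) (P' : List A) (a : A) : Prop :=
  ∀ (s : S.X) (w : ℕ → A), s.1 = app P (cons a w) → (f s).1 = app P' (cons (g • a) w)

/-- condition (G) -/
def Tame (f : S.X ≃o S.X) : Prop :=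
  ∀ P u, S.Cut P u → ∃ a0 ∈ u, ∃ g P', ∀ a ∈ u, a ≤ a0 → S.Germ f P g P' a

/-- good automorphisms -/
def Good (f : S.X ≃o S.X) : Prop := S.Deep f ∧ S.Tame f

/-- the upper set of the cut `(P, u)` -/
def U (P : List A) (u : Set A) : Set S.X :=
  {s | ∃ a ∈ u, ∃ w, S.Wd w ∧ toLex (app P (cons a w)) ≤ s.1}

/-- the image of a cut under an automorphism with a germ there -/
def im (P' : List A) (u : Set A) (a0 : A) (g : 𝒢) : Set A :=
  {b | b ∈ S.after P' ∧ ∃ a ∈ u, a ≤ a0 ∧ g • a ≤ b}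

/-- the upward closure of the set of moved points -/
def mv (f : S.X ≃o S.X) : Set S.X := {s | ∃ s' ≤ s, f s' ≠ s'}

/-- positive elements -/
def Pos (f : S.X ≃o S.X) : Prop :=
  ∃ P u, S.Cut P u ∧ S.mv f = S.U P u ∧ ∃ a0 ∈ u, ∃ g, S.pos g ∧ ∀ a ∈ u, a ≤ a0 → S.Germ f P g P a

end Sys

/-! ### the chain and the letters -/

/-- the interface of the chain used to define the letters -/
structure IsChain {K X0 : Type} [Group K] [LinearOrder X0] [MulAction K X0] (P : K → Prop)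
    (H : Subgroup K) (c : K) (Lo : Set X0) (ym yp : X0) : Prop where
  mono : ∀ (k : K) (v w : X0), v < w → k • v < k • w
  conv : ∀ (k h : K) (v : X0), P k → P h → (k * h) • v = v → h • v = v
  faith : ∀ k : K, k ≠ 1 → ∃ v : X0, k • v ≠ v
  lo_smul : ∀ (k : K) (v : X0), v ∈ Lo ↔ k • v ∈ Lo
  lo_lt : ∀ v ∈ Lo, ∀ w ∉ Lo, v < w
  ym_mem : ym ∈ Lo
  yp_mem : yp ∉ Lo
  fix_lo : ∀ h ∈ H, ∀ v ≤ ym, h • v = v
  fix_hi : ∀ h ∈ H, ∀ v, yp ≤ v → h • v = v
  ym_lt : ym < c • ym
  yp_lt : yp < c • yp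


/-- letters: a point of the chain and an integer label -/
def Letter (X0 : Type) : Type := X0 ×ₗ ℤ

noncomputable instance (X0 : Type) [LinearOrder X0] : LinearOrder (Letter X0) :=
  inferInstanceAs (LinearOrder (X0 ×ₗ ℤ))

/-- the letter `(v, n)` -/
def mkL {X0 : Type} (v : X0) (n : ℤ) : Letter X0 := toLex (v, n)

/-- the point of a letter -/
def Letter.pt {X0 : Type} (a : Letter X0) : X0 := (ofLex a).1

/-- the label of a letter -/
def Letter.lb {X0 : Type} (a : Letter X0) : ℤ := (ofLex a).2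

instance {K X0 : Type} [Group K] [MulAction K X0] :
    MulAction (Multiplicative ℤ × K) (Letter X0) where
  smul g a := mkL (g.2 • a.pt) (g.1.toAdd + a.lb)
  one_smul a := by
    change mkL ((1 : K) • a.pt) ((1 : Multiplicative ℤ).toAdd + a.lb) = a
    rw [one_smul, toAdd_one, zero_add]; rfl
  mul_smul g h a := by
    change mkL ((g.2 * h.2) • a.pt) ((g.1 * h.1).toAdd + a.lb) =
      mkL (g.2 • (h.2 • a.pt)) (g.1.toAdd + (h.1.toAdd + a.lb))
    rw [mul_smul, toAdd_mul, add_assoc]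

/-- the cone of `ℤ ×ₗ K` -/
def gpos {K : Type} [Group K] (P : K → Prop) (g : Multiplicative ℤ × K) : Prop :=
  0 < g.1.toAdd ∨ (g.1 = 1 ∧ P g.2)

end Pool.Agent.Kokorin
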