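import Pool.Agent.Lib.MP_ab86ea_al.Chain

/-! P6: reduction to the same leading term -/

set_option autoImplicit false

namespace Pool.Agent.Kokorin

namespace Ph

section Real

set_option linter.unusedSectionVars false

variable {K : Type} [Group K] [LinearOrder K] [MulLeftMono K] [MulRightMono K]

/-- powers of an element `> 1` are strictly increasing -/
theorem zpow_lt {a : K} (ha : 1 < a) {m n : ℤ} (h : m < n) : a ^ m < a ^ n := by
  obtain ⟨k, rfl⟩ : ∃ k : ℕ, n = m + (k + 1 : ℕ) := ⟨(n - m - 1).toNat, by omega⟩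
  rw [zpow_add, zpow_natCast]
  have h1 : 1 < a ^ (k + 1) := one_lt_pow' ha (Nat.succ_ne_zero k)
  exact lt_mul_of_one_lt_right' _ h1

theorem zpow_le_iff {a : K} (ha : 1 < a) {m n : ℤ} : a ^ m ≤ a ^ n ↔ m ≤ n := by
  have h : StrictMono fun n : ℤ => a ^ n := fun m n h => zpow_lt ha h
  exact h.le_iff_le

/-- the elements bounded by powers of `a` -/
def Bd (a g : K) : Prop := ∃ n : ℕ, a ^ (-(n : ℤ)) ≤ g ∧ g ≤ a ^ (n : ℤ)

theorem Bd.le_pow {a g : K} (ha : 1 < a) (h : Bd a g) (q : ℕ) :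
    ∃ n : ℕ, a ^ (-((n * q : ℕ) : ℤ)) ≤ g ^ q ∧ g ^ q ≤ a ^ ((n * q : ℕ) : ℤ) := by
  obtain ⟨n, h1, h2⟩ := h
  refine ⟨n, ?_, ?_⟩
  · have := pow_le_pow_left' h1 q
    rwa [← zpow_natCast, ← zpow_mul, neg_mul, ← Nat.cast_mul] at this
  · have := pow_le_pow_left' h2 q
    rwa [← zpow_natCast (a ^ (n : ℤ)), ← zpow_mul, ← Nat.cast_mul] at this

/-- the set of rational lower bounds -/
def low (a g : K) : Set ℝ := {x | ∃ (p : ℤ) (q : ℕ), 0 < q ∧ a ^ p ≤ g ^ q ∧ x = p / q}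

/-- the real value of `g` relative to `a` -/
noncomputable def phi (a g : K) : ℝ := sSup (low a g)

/-- cross comparison -/
theorem cross {a g : K} (ha : 1 < a) {p p' : ℤ} {q q' : ℕ} (h1 : a ^ p' ≤ g ^ q')
    (h2 : g ^ q ≤ a ^ p) : p' * q ≤ p * q' := by
  rw [← zpow_le_iff ha]
  calc a ^ (p' * q) = (a ^ p') ^ q := by rw [zpow_mul, zpow_natCast]
    _ ≤ (g ^ q') ^ q := pow_le_pow_left' h1 q
    _ = (g ^ q) ^ q' := by rw [← pow_mul, ← pow_mul, mul_comm]
    _ ≤ (a ^ p) ^ q' := pow_le_pow_left' h2 q'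
    _ = a ^ (p * q') := by rw [zpow_mul, zpow_natCast]

theorem low_le {a g : K} (ha : 1 < a) {p : ℤ} {q : ℕ} (hq : 0 < q) (h2 : g ^ q ≤ a ^ p) :
    ∀ x ∈ low a g, x ≤ p / q := by
  rintro x ⟨p', q', hq', h1, rfl⟩
  have h3 := cross ha h1 h2
  have hq1 : (0 : ℝ) < q := by exact_mod_cast hq
  have hq2 : (0 : ℝ) < q' := by exact_mod_cast hq'
  rw [div_le_div_iff₀ hq2 hq1]
  exact_mod_cast h3

theorem low_ne {a g : K} (ha : 1 < a) (hg : Bd a g) : (low a g).Nonempty := by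
  obtain ⟨n, h1, h2⟩ := hg.le_pow ha 1
  exact ⟨_, _, 1, one_pos, h1, rfl⟩

theorem phi_le {a g : K} (ha : 1 < a) (hg : Bd a g) {p : ℤ} {q : ℕ} (hq : 0 < q)
    (h : g ^ q ≤ a ^ p) : phi a g ≤ p / q := csSup_le (low_ne ha hg) (low_le ha hq h)

theorem low_bdd {a g : K} (ha : 1 < a) (hg : Bd a g) : BddAbove (low a g) := by
  obtain ⟨n, h1, h2⟩ := hg.le_pow ha 1
  exact ⟨_, low_le ha one_pos h2⟩

theorem le_phi {a g : K} (ha : 1 < a) (hg : Bd a g) {p : ℤ} {q : ℕ} (hq : 0 < q)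
    (h : a ^ p ≤ g ^ q) : (p : ℝ) / q ≤ phi a g :=
  le_csSup (low_bdd ha hg) ⟨p, q, hq, h, rfl⟩

theorem phi_mono {a g h : K} (ha : 1 < a) (hg : Bd a g) (hh : Bd a h) (hgh : g ≤ h) :
    phi a g ≤ phi a h := by
  apply csSup_le_csSup (low_bdd ha hh) (low_ne ha hg)
  rintro x ⟨p, q, hq, h1, rfl⟩
  exact ⟨p, q, hq, h1.trans (pow_le_pow_left' hgh q), rfl⟩

/-- integer part of `g ^ n` -/
theorem exists_floor {a g : K} (ha : 1 < a) (hg : Bd a g) (n : ℕ) :
    ∃ p : ℤ, a ^ p ≤ g ^ n ∧ g ^ n < a ^ (p + 1) := by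
  obtain ⟨N, h1, h2⟩ := hg.le_pow ha n
  obtain ⟨p, hp, hmax⟩ := Int.exists_greatest_of_bdd (P := fun p : ℤ => a ^ p ≤ g ^ n)
    ⟨((N * n : ℕ) : ℤ), fun z hz => (zpow_le_iff ha).1 (hz.trans h2)⟩ ⟨_, h1⟩
  refine ⟨p, hp, ?_⟩
  by_contra hlt
  have := hmax (p + 1) (not_lt.1 hlt)
  omega

theorem mul_pow_ge {g h : K} (hc : g * h ≤ h * g) (n : ℕ) : g ^ n * h ^ n ≤ (g * h) ^ n := by
  have key : ∀ n : ℕ, g * h ^ n ≤ h ^ n * g := by
    intro n
    induction n with
    | zero => simp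
    | succ n ih =>
      calc g * h ^ (n + 1) = (g * h ^ n) * h := by rw [pow_succ, mul_assoc]
        _ ≤ (h ^ n * g) * h := mul_le_mul_left ih h
        _ = h ^ n * (g * h) := mul_assoc _ _ _
        _ ≤ h ^ n * (h * g) := mul_le_mul_right hc _
        _ = h ^ (n + 1) * g := by rw [pow_succ, mul_assoc]
  induction n with
  | zero => simp
  | succ n ih =>
    calc g ^ (n + 1) * h ^ (n + 1) = (g ^ n * (g * h ^ n)) * h := by
          rw [pow_succ, pow_succ]; simp only [mul_assoc]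
      _ ≤ (g ^ n * (h ^ n * g)) * h := mul_le_mul_left (mul_le_mul_right (key n) _) _
      _ = (g ^ n * h ^ n) * (g * h) := by simp only [mul_assoc]
      _ ≤ (g * h) ^ n * (g * h) := mul_le_mul_left ih _
      _ = (g * h) ^ (n + 1) := (pow_succ _ _).symm

theorem mul_pow_le {g h : K} (hc : g * h ≤ h * g) (n : ℕ) : (g * h) ^ n ≤ h ^ n * g ^ n := by
  have key : ∀ n : ℕ, g ^ n * h ≤ h * g ^ n := by
    intro n
    induction n with
    | zero => simp
    | succ n ih =>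
      calc g ^ (n + 1) * h = g * (g ^ n * h) := by rw [pow_succ', mul_assoc]
        _ ≤ g * (h * g ^ n) := mul_le_mul_right ih _
        _ = (g * h) * g ^ n := (mul_assoc _ _ _).symm
        _ ≤ (h * g) * g ^ n := mul_le_mul_left hc _
        _ = h * g ^ (n + 1) := by rw [pow_succ', mul_assoc]
  induction n with
  | zero => simp
  | succ n ih =>
    calc (g * h) ^ (n + 1) = (g * h) ^ n * (g * h) := pow_succ _ _
      _ ≤ (h ^ n * g ^ n) * (g * h) := mul_le_mul_left ih _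
      _ = h ^ n * (g ^ (n + 1) * h) := by rw [pow_succ]; simp only [mul_assoc]
      _ ≤ h ^ n * (h * g ^ (n + 1)) := mul_le_mul_right (key _) _
      _ = h ^ (n + 1) * g ^ (n + 1) := by rw [pow_succ h]; simp only [mul_assoc]

theorem mul_pow_le2 {g h : K} (hc : g * h ≤ h * g) (n : ℕ) : (h * g) ^ n ≤ h ^ n * g ^ n := by
  have key : ∀ n : ℕ, g ^ n * h ≤ h * g ^ n := by
    intro n
    induction n with
    | zero => simp
    | succ n ih =>
      calc g ^ (n + 1) * h = g * (g ^ n * h) := by rw [pow_succ', mul_assoc]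
        _ ≤ g * (h * g ^ n) := mul_le_mul_right ih _
        _ = (g * h) * g ^ n := (mul_assoc _ _ _).symm
        _ ≤ (h * g) * g ^ n := mul_le_mul_left hc _
        _ = h * g ^ (n + 1) := by rw [pow_succ', mul_assoc]
  induction n with
  | zero => simp
  | succ n ih =>
    calc (h * g) ^ (n + 1) = (h * g) ^ n * (h * g) := pow_succ _ _
      _ ≤ (h ^ n * g ^ n) * (h * g) := mul_le_mul_left ih _
      _ = h ^ n * ((g ^ n * h) * g) := by simp only [mul_assoc]
      _ ≤ h ^ n * ((h * g ^ n) * g) := mul_le_mul_right (mul_le_mul_left (key _) _) _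
      _ = h ^ (n + 1) * g ^ (n + 1) := by rw [pow_succ, pow_succ]; simp only [mul_assoc]

theorem Bd.mul {a g h : K} (ha : 1 < a) (hg : Bd a g) (hh : Bd a h) : Bd a (g * h) := by
  obtain ⟨n, h1, h2⟩ := hg
  obtain ⟨m, h3, h4⟩ := hh
  refine ⟨n + m, ?_, ?_⟩
  · have := mul_le_mul' h1 h3
    rw [← zpow_add] at this
    convert this using 2
    push_cast; ring
  · have := mul_le_mul' h2 h4
    rw [← zpow_add] at this
    convert this using 2
    push_cast; ring

theorem Bd.inv {a g : K} (ha : 1 < a) (hg : Bd a g) : Bd a g⁻¹ := by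
  obtain ⟨n, h1, h2⟩ := hg
  refine ⟨n, ?_, ?_⟩
  · rw [zpow_neg]; exact inv_le_inv_iff.2 h2
  · rw [← inv_inv (a ^ (n : ℤ)), ← zpow_neg]; exact inv_le_inv_iff.2 h1

theorem Bd.one (a : K) : Bd a 1 := ⟨0, by simp, by simp⟩

theorem Bd.self (a : K) (ha : 1 < a) : Bd a a := by
  refine ⟨1, ?_, by simp⟩
  have h := (zpow_le_iff ha (m := -((1 : ℕ) : ℤ)) (n := 1)).2 (by norm_num)
  rwa [zpow_one] at h

/-- approximate additivity -/
theorem phi_mul_approx {a g h : K} (ha : 1 < a) (hg : Bd a g) (hh : Bd a h) (n : ℕ)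
    (hn : 0 < n) : |phi a (g * h) - (phi a g + phi a h)| ≤ 2 / n := by
  have hgh := hg.mul ha hh
  obtain ⟨p, hp1, hp2⟩ := exists_floor ha hg n
  obtain ⟨r, hr1, hr2⟩ := exists_floor ha hh n
  have hn0 : (0 : ℝ) < n := by exact_mod_cast hn
  have lo : a ^ (p + r) ≤ (g * h) ^ n := by
    rcases le_total (g * h) (h * g) with hc | hc
    · calc a ^ (p + r) = a ^ p * a ^ r := zpow_add _ _ _
        _ ≤ g ^ n * h ^ n := mul_le_mul' hp1 hr1
        _ ≤ _ := mul_pow_ge hc n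
    · calc a ^ (p + r) = a ^ (r + p) := by rw [add_comm]
        _ = a ^ r * a ^ p := zpow_add _ _ _
        _ ≤ h ^ n * g ^ n := mul_le_mul' hr1 hp1
        _ ≤ (h * g) ^ n := mul_pow_ge hc n
        _ ≤ (g * h) ^ n := pow_le_pow_left' hc n
  have hi : (g * h) ^ n ≤ a ^ (p + r + 2) := by
    rcases le_total (g * h) (h * g) with hc | hc
    · calc (g * h) ^ n ≤ h ^ n * g ^ n := mul_pow_le hc n
        _ ≤ a ^ (r + 1) * a ^ (p + 1) := mul_le_mul' hr2.le hp2.le
        _ = a ^ (p + r + 2) := by rw [← zpow_add]; congr 1; ring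
    · have h3 : (g * h) ^ n ≤ g ^ n * h ^ n := mul_pow_le2 hc n
      calc (g * h) ^ n ≤ g ^ n * h ^ n := h3
        _ ≤ a ^ (p + 1) * a ^ (r + 1) := mul_le_mul' hp2.le hr2.le
        _ = a ^ (p + r + 2) := by rw [← zpow_add]; congr 1; ring
  have e1 := le_phi ha hgh hn lo
  have e2 := phi_le ha hgh hn hi
  have e3 := le_phi ha hg hn hp1
  have e4 := phi_le ha hg hn hp2.le
  have e5 := le_phi ha hh hn hr1
  have e6 := phi_le ha hh hn hr2.le
  push_cast at e1 e2 e3 e4 e5 e6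
  have f1 : ((p : ℝ) + r) / n = p / n + r / n := add_div _ _ _
  have f2 : ((p : ℝ) + r + 2) / n = p / n + r / n + 2 / n := by rw [add_div, add_div]
  have f3 : ((p : ℝ) + 1) / n = p / n + 1 / n := add_div _ _ _
  have f4 : ((r : ℝ) + 1) / n = r / n + 1 / n := add_div _ _ _
  have f5 : (2 : ℝ) / n = 1 / n + 1 / n := by rw [← add_div]; norm_num
  rw [f1] at e1; rw [f2] at e2; rw [f3] at e4; rw [f4] at e6
  rw [abs_le]
  constructor <;> linarith

theorem phi_mul {a g h : K} (ha : 1 < a) (hg : Bd a g) (hh : Bd a h) :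
    phi a (g * h) = phi a g + phi a h := by
  by_contra hne
  have h1 : 0 < |phi a (g * h) - (phi a g + phi a h)| := abs_pos.2 (sub_ne_zero.2 hne)
  obtain ⟨n, hn⟩ := exists_nat_gt (2 / |phi a (g * h) - (phi a g + phi a h)|)
  have hn0 : (0 : ℝ) < n := lt_trans (by positivity) hn
  have hn1 : 0 < n := by exact_mod_cast hn0
  have h2 := phi_mul_approx ha hg hh n hn1
  rw [div_lt_iff₀ h1] at hn
  rw [le_div_iff₀ hn0] at h2
  linarith

theorem phi_one {a : K} (ha : 1 < a) : phi a 1 = 0 := by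
  have h := phi_mul ha (Bd.one a) (Bd.one a)
  rw [mul_one] at h
  linarith

theorem phi_inv {a g : K} (ha : 1 < a) (hg : Bd a g) : phi a g⁻¹ = -phi a g := by
  have h := phi_mul ha hg (hg.inv ha)
  rw [mul_inv_cancel, phi_one ha] at h
  linarith

theorem phi_self {a : K} (ha : 1 < a) : phi a a = 1 := by
  have h1 := phi_le ha (Bd.self a ha) (p := 1) (q := 1) one_pos (by simp)
  have h2 := le_phi ha (Bd.self a ha) (p := 1) (q := 1) one_pos (by simp)
  norm_num at h1 h2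
  exact le_antisymm h1 h2

theorem Bd.pow {a g : K} (ha : 1 < a) (hg : Bd a g) (n : ℕ) : Bd a (g ^ n) := by
  induction n with
  | zero => rw [pow_zero]; exact Bd.one a
  | succ n ih => rw [pow_succ]; exact ih.mul ha hg

theorem Bd.zpow {a g : K} (ha : 1 < a) (hg : Bd a g) (n : ℤ) : Bd a (g ^ n) := by
  cases n with
  | ofNat n => rw [Int.ofNat_eq_natCast, zpow_natCast]; exact hg.pow ha n
  | negSucc n => rw [zpow_negSucc]; exact (hg.pow ha _).inv ha

theorem phi_pow {a g : K} (ha : 1 < a) (hg : Bd a g) (n : ℕ) : phi a (g ^ n) = n * phi a g := by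
  induction n with
  | zero => rw [pow_zero, phi_one ha]; simp
  | succ n ih => rw [pow_succ, phi_mul ha (hg.pow ha n) hg, ih]; push_cast; ring

theorem phi_zpow {a g : K} (ha : 1 < a) (hg : Bd a g) (n : ℤ) :
    phi a (g ^ n) = n * phi a g := by
  cases n with
  | ofNat n => rw [Int.ofNat_eq_natCast, zpow_natCast, phi_pow ha hg]; simp
  | negSucc n =>
    rw [zpow_negSucc, phi_inv ha (hg.pow ha _), phi_pow ha hg]
    push_cast; ring

/-- conjugation by `x` with `x a x⁻¹ ≤ a` preserves the bounded elements -/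
theorem Bd.conj {a g x : K} (hx : x * a * x⁻¹ ≤ a) (ha : 1 < a) (hg : Bd a g) :
    Bd a (x * g * x⁻¹) := by
  obtain ⟨n, h1, h2⟩ := hg
  have e : ∀ m : ℤ, x * a ^ m * x⁻¹ = (x * a * x⁻¹) ^ m := fun m => (conj_zpow).symm
  have h3 : (x * a * x⁻¹) ^ (n : ℤ) ≤ a ^ (n : ℤ) := by
    rw [zpow_natCast, zpow_natCast]; exact pow_le_pow_left' hx n
  refine ⟨n, ?_, ?_⟩
  · calc a ^ (-(n : ℤ)) ≤ (x * a * x⁻¹) ^ (-(n : ℤ)) := by
          rw [zpow_neg, zpow_neg]; exact inv_le_inv_iff.2 h3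
      _ = x * a ^ (-(n : ℤ)) * x⁻¹ := (e _).symm
      _ ≤ x * g * x⁻¹ := mul_le_mul_left (mul_le_mul_right h1 x) _
  · calc x * g * x⁻¹ ≤ x * a ^ (n : ℤ) * x⁻¹ := mul_le_mul_left (mul_le_mul_right h2 x) _
      _ = (x * a * x⁻¹) ^ (n : ℤ) := e _
      _ ≤ a ^ (n : ℤ) := h3

theorem one_lt_conj {a : K} (ha : 1 < a) (x : K) : 1 < x * a * x⁻¹ := by
  have h : x * 1 * x⁻¹ < x * a * x⁻¹ := by
    refine lt_of_le_of_ne (mul_le_mul_left (mul_le_mul_right ha.le x) _) ?_
    intro e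
    have := mul_right_cancel e
    exact ha.ne (mul_left_cancel this)
  simpa using h

/-- the value of conjugates -/
theorem phi_conj {a g x : K} (hx : x * a * x⁻¹ ≤ a) (ha : 1 < a) (hg : Bd a g) :
    phi a (x * g * x⁻¹) = phi a (x * a * x⁻¹) * phi a g := by
  set s := phi a (x * a * x⁻¹) with hs
  have hBa : Bd a (x * a * x⁻¹) := (Bd.self a ha).conj hx ha
  have hBg : Bd a (x * g * x⁻¹) := hg.conj hx ha
  have hs0 : 0 ≤ s := by
    rw [← phi_one ha]
    exact phi_mono ha (Bd.one a) hBa (one_lt_conj ha x).le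
  have bound : ∀ n : ℕ, 0 < n → |phi a (x * g * x⁻¹) - s * phi a g| ≤ s / n := by
    intro n hn
    have hn0 : (0 : ℝ) < n := by exact_mod_cast hn
    obtain ⟨p, hp1, hp2⟩ := exists_floor ha hg n
    have c1 : (x * a * x⁻¹) ^ p ≤ (x * g * x⁻¹) ^ n := by
      rw [conj_zpow, conj_pow]
      exact mul_le_mul_left (mul_le_mul_right hp1 x) _
    have c2 : (x * g * x⁻¹) ^ n ≤ (x * a * x⁻¹) ^ (p + 1) := by
      rw [conj_zpow, conj_pow]
      exact mul_le_mul_left (mul_le_mul_right hp2.le x) _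
    have d1 := phi_mono ha (hBa.zpow ha _) (hBg.pow ha _) c1
    have d2 := phi_mono ha (hBg.pow ha _) (hBa.zpow ha _) c2
    rw [phi_zpow ha hBa, phi_pow ha hBg] at d1 d2
    have e3 := le_phi ha hg hn hp1
    have e4 := phi_le ha hg hn hp2.le
    rw [div_le_iff₀ hn0] at e3
    rw [le_div_iff₀ hn0] at e4
    push_cast at d2 e4
    rw [← hs] at d1 d2
    have habs : |phi a (x * g * x⁻¹) - s * phi a g| * n =
        |(phi a (x * g * x⁻¹) - s * phi a g) * n| := by rw [abs_mul, abs_of_pos hn0]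
    rw [le_div_iff₀ hn0, habs, abs_le]
    have f1 := mul_le_mul_of_nonneg_left e3 hs0
    have f2 := mul_le_mul_of_nonneg_left e4 hs0
    constructor <;> nlinarith
  by_contra hne
  have h1 : 0 < |phi a (x * g * x⁻¹) - s * phi a g| := abs_pos.2 (sub_ne_zero.2 hne)
  obtain ⟨n, hn⟩ := exists_nat_gt (s / |phi a (x * g * x⁻¹) - s * phi a g|)
  have hn0 : (0 : ℝ) < n := lt_of_le_of_lt (by positivity) hn
  have hn1 : 0 < n := by exact_mod_cast hn0
  have h2 := bound n hn1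
  rw [div_lt_iff₀ h1] at hn
  rw [le_div_iff₀ hn0] at h2
  linarith

/-- products of conjugates -/
def pc (a : K) (l : List K) : K := (l.map fun x => x * a * x⁻¹).prod

theorem pc_cons (a x : K) (l : List K) : pc a (x :: l) = (x * a * x⁻¹) * pc a l := by
  rw [pc, List.map_cons, List.prod_cons]; rfl

theorem Bd.pc {a b : K} (ha : 1 < a) (hb : Bd a b) (l : List K)
    (hl : ∀ x ∈ l, x * a * x⁻¹ ≤ a) : Bd a (pc b l) := by
  induction l with
  | nil => exact Bd.one a
  | cons x l ih =>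
    rw [pc_cons]
    exact (hb.conj (hl x (List.mem_cons_self ..)) ha).mul ha
      (ih fun y hy => hl y (List.mem_cons_of_mem _ hy))

theorem phi_pc {a b : K} (ha : 1 < a) (hb : Bd a b) (l : List K)
    (hl : ∀ x ∈ l, x * a * x⁻¹ ≤ a) : phi a (Ph.pc b l) = phi a (Ph.pc a l) * phi a b := by
  induction l with
  | nil =>
    change phi a 1 = phi a 1 * _
    rw [phi_one ha, zero_mul]
  | cons x l ih =>
    have hx := hl x (List.mem_cons_self ..)
    have hl' : ∀ y ∈ l, y * a * y⁻¹ ≤ a := fun y hy => hl y (List.mem_cons_of_mem _ hy)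
    rw [pc_cons, pc_cons, phi_mul ha (hb.conj hx ha) (hb.pc ha l hl'),
      phi_mul ha ((Bd.self a ha).conj hx ha) ((Bd.self a ha).pc ha l hl'), ih hl',
      phi_conj hx ha hb]
    ring

theorem one_le_pc {a : K} (ha : 1 < a) (l : List K) : 1 ≤ pc a l := by
  induction l with
  | nil => exact le_rfl
  | cons x l ih =>
    rw [pc_cons]
    exact one_le_mul (one_lt_conj ha x).le ih

theorem le_pc {a : K} (ha : 1 < a) (l : List K) (x : K) (hx : x ∈ l) :
    x * a * x⁻¹ ≤ pc a l := by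
  induction l with
  | nil => simp at hx
  | cons y l ih =>
    rw [pc_cons]
    rcases List.mem_cons.1 hx with rfl | hx
    · exact le_mul_of_one_le_right' (one_le_pc ha l)
    · exact (ih hx).trans (le_mul_of_one_le_left' (one_lt_conj ha y).le)

theorem ss_pc {a : K} (l : List K) (hl : l ≠ []) : SS a (pc a l) := by
  induction l with
  | nil => exact absurd rfl hl
  | cons x l ih =>
    rw [pc_cons]
    by_cases h : l = []
    · subst h
      change SS a (x * a * x⁻¹ * 1)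
      rw [mul_one]
      exact SS.conj x
    · exact SS.mul _ _ (SS.conj x) (ih h)

theorem pc_append (a : K) (l m : List K) : pc a (l ++ m) = pc a l * pc a m := by
  simp [pc]

theorem exists_pc {a b : K} (h : SS a b) : ∃ l : List K, l ≠ [] ∧ b = pc a l := by
  induction h with
  | conj x => exact ⟨[x], by simp, by simp [pc]⟩
  | mul b c _ _ hb hc =>
    obtain ⟨l, h1, rfl⟩ := hb
    obtain ⟨m, h2, rfl⟩ := hc
    exact ⟨l ++ m, by simp [h1], (pc_append a l m).symm⟩

theorem conj_pc (a y : K) (l : List K) : y * pc a l * y⁻¹ = pc a (l.map fun x => y * x) := by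
  induction l with
  | nil => simp [pc]
  | cons x l ih =>
    rw [List.map_cons, pc_cons, pc_cons, ← ih]
    group

/-- normal form: all conjugates at most `a`, one of them equal to `a` -/
theorem normal {a b : K} (h : SS a b) : ∃ (y : K) (l : List K), l ≠ [] ∧
    y * b * y⁻¹ = pc a l ∧ (∀ x ∈ l, x * a * x⁻¹ ≤ a) ∧ ∃ x ∈ l, x * a * x⁻¹ = a := by
  obtain ⟨l, hl, rfl⟩ := exists_pc h
  have hm : ∃ x0 ∈ l, ∀ x ∈ l, x * a * x⁻¹ ≤ x0 * a * x0⁻¹ := by
    clear h
    induction l with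
    | nil => exact absurd rfl hl
    | cons x l ih =>
      by_cases h : l = []
      · subst h
        exact ⟨x, by simp, by simp⟩
      · obtain ⟨x0, h1, h2⟩ := ih h
        rcases le_total (x0 * a * x0⁻¹) (x * a * x⁻¹) with h3 | h3
        · refine ⟨x, List.mem_cons_self .., ?_⟩
          intro z hz
          rcases List.mem_cons.1 hz with rfl | hz
          · exact le_rfl
          · exact (h2 z hz).trans h3
        · refine ⟨x0, List.mem_cons_of_mem _ h1, ?_⟩
          intro z hz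
          rcases List.mem_cons.1 hz with rfl | hz
          · exact h3
          · exact h2 z hz
  obtain ⟨x0, h1, h2⟩ := hm
  refine ⟨x0⁻¹, l.map fun x => x0⁻¹ * x, by simpa using hl, conj_pc a x0⁻¹ l, ?_, ?_⟩
  · intro z hz
    obtain ⟨x, hx, rfl⟩ := List.mem_map.1 hz
    have h3 := mul_le_mul_left (mul_le_mul_right (h2 x hx) x0⁻¹) x0
    have e1 : x0⁻¹ * (x * a * x⁻¹) * x0 = x0⁻¹ * x * a * (x0⁻¹ * x)⁻¹ := by group
    have e2 : x0⁻¹ * (x0 * a * x0⁻¹) * x0 = a := by group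
    rwa [e1, e2] at h3
  · exact ⟨x0⁻¹ * x0, List.mem_map.2 ⟨x0, h1, rfl⟩, by group⟩

end Real

theorem ss_conj {G : Type} [Group G] {a b : G} (h : SS a b) (x : G) : SS a (x * b * x⁻¹) := by
  induction h with
  | conj y =>
    have e : x * (y * a * y⁻¹) * x⁻¹ = (x * y) * a * (x * y)⁻¹ := by group
    rw [e]; exact SS.conj _
  | mul u v _ _ hu hv =>
    have e : x * (u * v) * x⁻¹ = (x * u * x⁻¹) * (x * v * x⁻¹) := by group
    rw [e]; exact SS.mul _ _ hu hv

theorem ss_trans {G : Type} [Group G] {a b c : G} (h : SS a b) (h' : SS b c) : SS a c := by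
  induction h' with
  | conj x => exact ss_conj h x
  | mul u v _ _ hu hv => exact SS.mul _ _ hu hv

end Ph

open Ph in
theorem reduction {K : Type} [Group K] {P : K → Prop} (hP : IsCone P) {a b c : K} (ha : P a)
    (hb : SS a b) (hc : SS a c) : ∃ b1 c1, SS b b1 ∧ SS c c1 ∧ KeyPair P b1 c1 := by
  let _ := coneOrder hP
  have : MulLeftMono K := coneOrder_mulLeft hP
  have : MulRightMono K := coneOrder_mulRight hP
  have hpos : ∀ g : K, 1 < g ↔ P g := coneOrder_one_lt hP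
  have ha' : 1 < a := (hpos a).2 ha
  obtain ⟨y, l, hl, hy, hle, x1, hx1, hx1'⟩ := normal hb
  obtain ⟨z, m, hm, hz, hme, x2, hx2, hx2'⟩ := normal hc
  set b' := pc a l with hb'
  set c' := pc a m with hc'
  have hBb : Bd a b' := (Bd.self a ha').pc ha' l hle
  have hBc : Bd a c' := (Bd.self a ha').pc ha' m hme
  have hB1 : Bd a (pc b' m) := hBb.pc ha' m hme
  have hC1 : Bd a (pc c' l) := hBc.pc ha' l hle
  have vb : phi a (pc b' m) = phi a c' * phi a b' := phi_pc ha' hBb m hme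
  have vc : phi a (pc c' l) = phi a b' * phi a c' := phi_pc ha' hBc l hle
  have b1 : 1 ≤ phi a b' := by
    have h1 := le_pc ha' l x1 hx1
    rw [hx1'] at h1
    have h2 := phi_mono ha' (Bd.self a ha') hBb h1
    rwa [phi_self ha'] at h2
  have c1 : 1 ≤ phi a c' := by
    have h1 := le_pc ha' m x2 hx2
    rw [hx2'] at h1
    have h2 := phi_mono ha' (Bd.self a ha') hBc h1
    rwa [phi_self ha'] at h2
  have hSb : SS b (pc b' m) := by
    have h1 : SS b b' := by rw [← hy]; exact SS.conj y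
    exact ss_trans h1 (ss_pc m hm)
  have hSc : SS c (pc c' l) := by
    have h1 : SS c c' := by rw [← hz]; exact SS.conj z
    exact ss_trans h1 (ss_pc l hl)
  -- the kernel
  let H : Subgroup K :=
    { carrier := {g | Bd a g ∧ phi a g = 0}
      mul_mem' := by
        rintro g h ⟨h1, h2⟩ ⟨h3, h4⟩
        exact ⟨h1.mul ha' h3, by rw [phi_mul ha' h1 h3, h2, h4, add_zero]⟩
      one_mem' := ⟨Bd.one a, phi_one ha'⟩
      inv_mem' := by
        rintro g ⟨h1, h2⟩
        exact ⟨h1.inv ha', by rw [phi_inv ha' h1, h2, neg_zero]⟩ }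
  have hval : ∀ k, Bd a k → ∀ h, Bd a h → phi a (k * h * k⁻¹) = phi a h := by
    intro k hk h hh
    rw [phi_mul ha' (hk.mul ha' hh) (hk.inv ha'), phi_mul ha' hk hh, phi_inv ha' hk]
    ring
  refine ⟨pc b' m, pc c' l, hSb, hSc, H, ?_, ?_, ?_, ?_, ?_⟩
  · rintro g h hg ⟨h1, h2⟩ hgh
    have g1 : 1 < g := (hpos g).2 hg
    have g2 : g < h := by
      have h3 : 1 < g⁻¹ * h := (hpos _).2 hgh
      have h4 := mul_le_mul_right h3.le g
      rw [mul_one, mul_inv_cancel_left] at h4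
      refine lt_of_le_of_ne h4 ?_
      rintro rfl
      rw [inv_mul_cancel] at h3
      exact lt_irrefl _ h3
    have hBg : Bd a g := by
      obtain ⟨n, h3, h4⟩ := h1
      refine ⟨n, ?_, g2.le.trans h4⟩
      have h5 : a ^ (-(n : ℤ)) ≤ a ^ (0 : ℤ) := (zpow_le_iff ha').2 (by omega)
      rw [zpow_zero] at h5
      exact h5.trans g1.le
    refine ⟨hBg, le_antisymm ?_ ?_⟩
    · rw [← h2]; exact phi_mono ha' hBg h1 g2.le
    · rw [← phi_one ha']; exact phi_mono ha' (Bd.one a) hBg g1.le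
  · rw [← hpos]
    have h1 : 1 < c' := ha'.trans_le (by have := le_pc ha' m x2 hx2; rwa [hx2'] at this)
    have h2 := le_pc h1 l x1 hx1
    exact (one_lt_conj h1 x1).trans_le h2
  · rintro ⟨-, h2⟩
    rw [vc] at h2
    nlinarith
  · intro h
    constructor
    · rintro ⟨h1, h2⟩
      exact ⟨(hC1.mul ha' h1).mul ha' (hC1.inv ha'), by rw [hval _ hC1 _ h1, h2]⟩
    · rintro ⟨h1, h2⟩
      have e : (pc c' l)⁻¹ * (pc c' l * h * (pc c' l)⁻¹) * pc c' l = h := by group
      have h3 : Bd a h := by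
        rw [← e]
        exact ((hC1.inv ha').mul ha' h1).mul ha' hC1
      exact ⟨h3, by rw [← h2, hval _ hC1 _ h3]⟩
  · refine ⟨(hB1.inv ha').mul ha' hC1, ?_⟩
    rw [phi_mul ha' (hB1.inv ha') hC1, phi_inv ha' hB1, vb, vc]
    ring

end Pool.Agent.Kokorin
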