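import Pool.Agent.Lib.MP_ab86ea_al.Chain
import Pool.Agent.Lib.MP_ab86ea_al.Auts

/-! Kokorin problem: the key lemma and the iteration -/

/-! P5: the relation and the key lemma -/

set_option autoImplicit false

namespace Pool.Agent.Kokorin

namespace Ky

section Raw

variable {K X0 : Type} [Group K] [MulAction K X0]

open Classical in
/-- move the second letter under first letters in `T` -/
noncomputable def a2 (T : Set (Letter X0)) (ρ : K) (s : ℕ → Letter X0) : ℕ → Letter X0 :=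
  if s 0 ∈ T then cons (s 0) (cons (((1 : Multiplicative ℤ), ρ) • (s 1)) (tail (tail s))) else s

theorem a2_pos {T : Set (Letter X0)} {ρ : K} {s : ℕ → Letter X0} (h : s 0 ∈ T) :
    a2 T ρ s = cons (s 0) (cons (((1 : Multiplicative ℤ), ρ) • (s 1)) (tail (tail s))) :=
  if_pos h

theorem a2_neg {T : Set (Letter X0)} {ρ : K} {s : ℕ → Letter X0} (h : s 0 ∉ T) :
    a2 T ρ s = s := if_neg h

theorem smul_mkL (k : K) (v : X0) (n : ℤ) :
    ((1 : Multiplicative ℤ), k) • mkL v n = mkL (k • v) n := by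
  show mkL (k • v) (0 + n) = mkL (k • v) n
  rw [zero_add]

theorem smul_pt (k : K) (a : Letter X0) :
    (((1 : Multiplicative ℤ), k) • a).pt = k • a.pt := rfl

theorem smul_lb (k : K) (a : Letter X0) :
    (((1 : Multiplicative ℤ), k) • a).lb = a.lb := by
  show (0 : ℤ) + a.lb = a.lb
  rw [zero_add]

theorem smul_eq_mkL (k : K) (a : Letter X0) (v : X0) (n : ℤ) :
    ((1 : Multiplicative ℤ), k) • a = mkL v n ↔ a = mkL (k⁻¹ • v) n := by
  constructor
  · intro h
    have h1 : ((1 : Multiplicative ℤ), k⁻¹) • (((1 : Multiplicative ℤ), k) • a) = a := by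
      rw [smul_smul]
      have : ((1 : Multiplicative ℤ), k⁻¹) * ((1 : Multiplicative ℤ), k) = 1 := by
        ext <;> simp
      rw [this, one_smul]
    rw [← h1, h, smul_mkL]
  · rintro rfl
    rw [smul_mkL, smul_inv_smul]

theorem mkL_inj {v w : X0} {n m : ℤ} : mkL v n = mkL w m ↔ v = w ∧ n = m := by
  constructor
  · intro h
    exact ⟨congrArg Letter.pt h, congrArg Letter.lb h⟩
  · rintro ⟨rfl, rfl⟩; rfl

end Raw

section Auts

variable {K X0 : Type} [Group K] [LinearOrder X0] [MulAction K X0] {P : K → Prop}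
  {H : Subgroup K} {c : K} {Lo : Set X0} {ym yp : X0}

theorem ext_iff (hP : IsCone P) (hc : IsChain P H c Lo ym yp) {f g : (sys hP hc).Γ}
    (h : ∀ s : (sys hP hc).X, (f.1 s).1 = (g.1 s).1) : f = g := by
  apply Subtype.ext
  apply RelIso.ext
  intro s
  exact Subtype.ext (h s)

theorem pow_lt (hc : IsChain P H c Lo ym yp) {y : X0} (hy : y < c • y) {i j : ℕ} (h : i < j) :
    c ^ i • y < c ^ j • y := by
  have h1 : ∀ n : ℕ, c ^ n • y < c ^ (n + 1) • y := by
    intro n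
    have := hc.mono (c ^ n) _ _ hy
    rwa [smul_smul, ← pow_succ] at this
  exact (strictMono_nat_of_lt_succ (f := fun n => c ^ n • y) h1) h

theorem H_fix_ym (hc : IsChain P H c Lo ym yp) {ρ : K} (hρ : ρ ∈ H) : ρ • ym = ym :=
  hc.fix_lo ρ hρ ym le_rfl

theorem H_fix_yp (hc : IsChain P H c Lo ym yp) {ρ : K} (hρ : ρ ∈ H) : ρ • yp = yp :=
  hc.fix_hi ρ hρ yp le_rfl

theorem smul_mem_V0 (hP : IsCone P) (hc : IsChain P H c Lo ym yp) {ρ : K} (hρ : ρ ∈ H)
    {a : Letter X0} (ha : a ∈ (sys hP hc).V0) :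
    ((1 : Multiplicative ℤ), ρ) • a ∈ (sys hP hc).V0 := by
  obtain ⟨h1, h2, h3⟩ := ha
  refine ⟨?_, ?_, ?_⟩
  · rw [smul_pt, smul_lb, ← hc.lo_smul]; exact h1
  · rw [smul_pt, ← H_fix_ym hc hρ]; exact hc.mono ρ _ _ h2
  · rw [smul_pt, ← H_fix_yp hc hρ]; exact hc.mono ρ _ _ h3

/-- `ρ ∈ H` fixes the letters of words not starting in `V0` -/
theorem smul_eq_self (hP : IsCone P) (hc : IsChain P H c Lo ym yp) {ρ : K} (hρ : ρ ∈ H)
    {a : Letter X0} (hV : a ∈ (sys hP hc).V) (ha : a ∉ (sys hP hc).V0) :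
    ((1 : Multiplicative ℤ), ρ) • a = a := by
  have h1 : ρ • a.pt = a.pt := by
    rcases le_or_gt a.pt ym with h | h
    · exact hc.fix_lo ρ hρ _ h
    · rcases le_or_gt yp a.pt with h' | h'
      · exact hc.fix_hi ρ hρ _ h'
      · exact absurd ⟨hV, h, h'⟩ ha
  have h2 : ((1 : Multiplicative ℤ), ρ) • mkL a.pt a.lb = mkL a.pt a.lb := by
    rw [smul_mkL, h1]
  exact h2

variable (hP : IsCone P) (hc : IsChain P H c Lo ym yp)
  (F : K →* (sys hP hc).Γ)
  (hF : ∀ k (s : (sys hP hc).X),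
    ((F k).1 s).1 = cons (((1 : Multiplicative ℤ), k) • (s.1 0)) (tail s.1))
  (x : (sys hP hc).Γ)
  (hx1 : ∀ s : (sys hP hc).X, s.1 0 ∈ (sys hP hc).V0 → (x.1 s).1 = cons (mkL yp 1) s.1)
  (hx2 : ∀ (s : (sys hP hc).X), s.1 0 = mkL ym (-1) → (x.1 s).1 = tail s.1)

include hF in
theorem F_fix {ρ : K} (hρ : ρ ∈ H) (s : (sys hP hc).X) (hs : s.1 0 ∉ (sys hP hc).V0) :
    (F ρ).1 s = s := by
  apply Subtype.ext
  rw [hF, smul_eq_self hP hc hρ s.2.1 hs, cons_head_tail]

theorem mul_coe (f g : (sys hP hc).Γ) (s : (sys hP hc).X) : (f * g).1 s = f.1 (g.1 s) := rfl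

theorem inv_coe_apply (f : (sys hP hc).Γ) (s : (sys hP hc).X) : f.1 ((f⁻¹).1 s) = s := by
  rw [← mul_coe, mul_inv_cancel]; rfl

theorem inv_coe_apply' (f : (sys hP hc).Γ) (s : (sys hP hc).X) : (f⁻¹).1 (f.1 s) = s := by
  rw [← mul_coe, inv_mul_cancel]; rfl

include hF hx1 in
theorem mu_coe {ρ : K} (hρ : ρ ∈ H) (s : (sys hP hc).X) :
    ((x * F ρ * x⁻¹).1 s).1 = a2 {mkL yp 1} ρ s.1 := by
  rw [mul_coe, mul_coe]
  by_cases h : (x⁻¹.1 s).1 0 ∈ (sys hP hc).V0
  · have h1 : s.1 = cons (mkL yp 1) (x⁻¹.1 s).1 := by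
      rw [← hx1 _ h, inv_coe_apply]
    have h2 : s.1 0 = mkL yp 1 := by rw [h1]; rfl
    rw [a2_pos (by rw [h2]; rfl)]
    have h3 : ((F ρ).1 (x⁻¹.1 s)).1 0 ∈ (sys hP hc).V0 := by
      rw [hF]; exact smul_mem_V0 hP hc hρ h
    rw [hx1 _ h3, hF, h2]
    congr 1
    have h4 : (x⁻¹.1 s).1 = tail s.1 := by
      rw [h1]; rfl
    rw [h4]; rfl
  · have h1 : s.1 0 ∉ ({mkL yp 1} : Set (Letter X0)) := by
      intro h2
      apply h
      have h2' : s.1 0 = mkL yp 1 := h2
      -- the word `tail s` is valid, starts in `V0`, and `x` maps it to `s`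
      have h3 : (tail s.1) 0 ∈ (sys hP hc).V ∧ ∀ i, (tail s.1) (i + 1) ∈ (sys hP hc).V0 :=
        ⟨(sys hP hc).sub _ (s.2.2 0), fun i => s.2.2 (i + 1)⟩
      have h4 : x.1 ⟨toLex (tail s.1), h3⟩ = s := by
        apply Subtype.ext
        rw [hx1 _ (s.2.2 0), ← h2']
        exact cons_head_tail s.1
      have h5 : x⁻¹.1 s = ⟨toLex (tail s.1), h3⟩ := by
        conv_lhs => rw [← h4]
        exact inv_coe_apply' hP hc x _
      rw [h5]
      exact s.2.2 0
    rw [a2_neg h1, F_fix hP hc F hF hρ _ h, inv_coe_apply]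

include hF hx2 in
theorem nu_coe {ρ : K} (hρ : ρ ∈ H) (s : (sys hP hc).X) :
    ((x⁻¹ * F ρ * x).1 s).1 = a2 {mkL ym (-1)} ρ s.1 := by
  have key : ∀ t : (sys hP hc).X, t.1 0 ∈ (sys hP hc).V0 →
      (x⁻¹.1 t).1 = cons (mkL ym (-1)) t.1 := by
    intro t ht
    have h3 : (cons (mkL ym (-1)) t.1) 0 ∈ (sys hP hc).V ∧
        ∀ i, (cons (mkL ym (-1)) t.1) (i + 1) ∈ (sys hP hc).V0 := by
      refine ⟨Or.inl ⟨hc.ym_mem, ?_⟩, fun i => ?_⟩
      · show (-1 : ℤ) < 0
        norm_num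
      · cases i with
        | zero => exact ht
        | succ i => exact t.2.2 i
    have h4 : x.1 ⟨toLex (cons (mkL ym (-1)) t.1), h3⟩ = t := by
      apply Subtype.ext
      rw [hx2 _ rfl]
      rfl
    conv_lhs => rw [← h4]
    rw [inv_coe_apply']
    rfl
  rw [mul_coe, mul_coe]
  by_cases h : (x.1 s).1 0 ∈ (sys hP hc).V0
  · have h1 := key _ h
    rw [inv_coe_apply'] at h1
    have h2 : s.1 0 = mkL ym (-1) := by rw [h1]; rfl
    rw [a2_pos (by rw [h2]; rfl)]
    have h3 : ((F ρ).1 (x.1 s)).1 0 ∈ (sys hP hc).V0 := by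
      rw [hF]; exact smul_mem_V0 hP hc hρ h
    rw [key _ h3, hF, h2]
    congr 1
    have h4 : (x.1 s).1 = tail s.1 := by
      rw [h1]; rfl
    rw [h4]; rfl
  · have h1 : s.1 0 ∉ ({mkL ym (-1)} : Set (Letter X0)) := by
      intro h2
      apply h
      rw [hx2 s h2]
      exact s.2.2 0
    rw [a2_neg h1, F_fix hP hc F hF hρ _ h, inv_coe_apply']

end Auts

end Ky

section Auts

variable {K X0 : Type} [Group K] [LinearOrder X0] [MulAction K X0] {P : K → Prop}
  {H : Subgroup K} {c : K} {Lo : Set X0} {ym yp : X0}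

/-- P5a: the relation -/
theorem relation (hP : IsCone P) (hc : IsChain P H c Lo ym yp) (hcH : c ∉ H)
    (hn : ∀ h, h ∈ H ↔ c * h * c⁻¹ ∈ H) (b : K) (hb : b⁻¹ * c ∈ H)
    (F : K →* (sys hP hc).Γ)
    (hF : ∀ k (s : (sys hP hc).X),
      ((F k).1 s).1 = cons (((1 : Multiplicative ℤ), k) • (s.1 0)) (tail s.1)) :
    Eqn (F b) (F c) := by
  obtain ⟨x, hx1, hx2⟩ := exists_x hP hc
  -- the two elements of `H`
  have hρ1 : c⁻¹ * b ∈ H := by
    have := H.inv_mem hb
    rwa [mul_inv_rev, inv_inv] at this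
  have hρ2 : b * c⁻¹ ∈ H := by
    have := (hn (c⁻¹ * b)).1 hρ1
    rwa [← mul_assoc, mul_inv_cancel, one_mul] at this
  -- the two sets of letters
  let t1 : ℕ → Letter X0 := fun n => mkL (c ^ n • yp) 1
  let t2 : ℕ → Letter X0 := fun n => mkL (c ^ (n + 1) • ym) (-1)
  have ht1 : StrictMono t1 := by
    intro i j hij
    exact (Sh.letter_lt_iff _ _).2 (Or.inl (Ky.pow_lt hc hc.yp_lt hij))
  have ht2 : StrictMono t2 := by
    intro i j hij
    exact (Sh.letter_lt_iff _ _).2 (Or.inl (Ky.pow_lt hc hc.ym_lt (Nat.succ_lt_succ hij)))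
  have hwf : ∀ t : ℕ → Letter X0, StrictMono t → ∀ B : Set (Letter X0), B ⊆ Set.range t →
      B.Nonempty → ∃ b ∈ B, ∀ b' ∈ B, b ≤ b' := by
    intro t ht B hB hne
    classical
    have hex : ∃ n, t n ∈ B := by
      obtain ⟨b, hb⟩ := hne
      obtain ⟨n, rfl⟩ := hB hb
      exact ⟨n, hb⟩
    refine ⟨t (Nat.find hex), Nat.find_spec hex, fun b' hb' => ?_⟩
    obtain ⟨m, rfl⟩ := hB hb'
    exact ht.monotone (Nat.find_min' hex hb')
  obtain ⟨h1, h1a, h1b⟩ := exists_h hP hc (Set.range t1) (hwf t1 ht1) (c⁻¹ * b) hρ1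
  obtain ⟨h2, h2a, h2b⟩ := exists_h hP hc (Set.range t2) (hwf t2 ht2) (b * c⁻¹) hρ2
  have h1c : ∀ s : (sys hP hc).X, (h1.1 s).1 = Ky.a2 (Set.range t1) (c⁻¹ * b) s.1 := by
    intro s
    by_cases h : s.1 0 ∈ Set.range t1
    · rw [Ky.a2_pos h, h1a s h]
    · rw [Ky.a2_neg h, h1b s h]
  have h2c : ∀ s : (sys hP hc).X, (h2.1 s).1 = Ky.a2 (Set.range t2) (b * c⁻¹) s.1 := by
    intro s
    by_cases h : s.1 0 ∈ Set.range t2
    · rw [Ky.a2_pos h, h2a s h]
    · rw [Ky.a2_neg h, h2b s h]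
  have hμ := Ky.mu_coe hP hc F hF x hx1 hρ1
  have hν := Ky.nu_coe hP hc F hF x hx2 hρ2
  -- the four commutation rules
  have e1 : h1 * F c = (x * F (c⁻¹ * b) * x⁻¹) * F c * h1 := by
    apply Ky.ext_iff
    intro s
    rw [Ky.mul_coe, Ky.mul_coe, Ky.mul_coe, hμ, h1c, hF, hF, h1c]
    by_cases hs : s.1 0 ∈ Set.range t1
    · obtain ⟨n, hn'⟩ := hs
      have hs1 : s.1 0 ∈ Set.range t1 := ⟨n, hn'⟩
      have hcs : ((1 : Multiplicative ℤ), c) • s.1 0 = t1 (n + 1) := by
        rw [← hn', Ky.smul_mkL, smul_smul, ← pow_succ']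
      rw [Ky.a2_pos hs1]
      have hA : cons (((1 : Multiplicative ℤ), c) • s.1 0) (tail s.1) 0 ∈ Set.range t1 :=
        ⟨n + 1, hcs.symm⟩
      rw [Ky.a2_pos hA]
      have hB : cons (((1 : Multiplicative ℤ), c) •
          (cons (s.1 0) (cons (((1 : Multiplicative ℤ), c⁻¹ * b) • s.1 1) (tail (tail s.1)))) 0)
          (tail (cons (s.1 0) (cons (((1 : Multiplicative ℤ), c⁻¹ * b) • s.1 1)
            (tail (tail s.1))))) 0 ∉ ({mkL yp 1} : Set (Letter X0)) := by
        intro h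
        have h' : t1 (n + 1) = t1 0 := by
          rw [← hcs]
          have : mkL yp 1 = t1 0 := by
            show mkL yp 1 = mkL (c ^ 0 • yp) 1
            rw [pow_zero, one_smul]
          rw [← this]
          exact h
        exact absurd (ht1.injective h') (Nat.succ_ne_zero n)
      rw [Ky.a2_neg hB]
      rfl
    · rw [Ky.a2_neg hs]
      by_cases hs2 : ((1 : Multiplicative ℤ), c) • s.1 0 = mkL yp 1
      · have hA : cons (((1 : Multiplicative ℤ), c) • s.1 0) (tail s.1) 0 ∈ Set.range t1 := by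
          refine ⟨0, ?_⟩
          show mkL (c ^ 0 • yp) 1 = _
          rw [pow_zero, one_smul]
          exact hs2.symm
        have hB : cons (((1 : Multiplicative ℤ), c) • s.1 0) (tail s.1) 0 ∈
            ({mkL yp 1} : Set (Letter X0)) := hs2
        rw [Ky.a2_pos hA, Ky.a2_pos hB]
      · have hA : cons (((1 : Multiplicative ℤ), c) • s.1 0) (tail s.1) 0 ∉ Set.range t1 := by
          rintro ⟨n, hn'⟩
          have hn2 : ((1 : Multiplicative ℤ), c) • s.1 0 = mkL (c ^ n • yp) 1 := hn'.symm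
          cases n with
          | zero =>
            rw [pow_zero, one_smul] at hn2
            exact hs2 hn2
          | succ n =>
            apply hs
            rw [Ky.smul_eq_mkL, smul_smul, pow_succ', inv_mul_cancel_left] at hn2
            exact ⟨n, hn2.symm⟩
        have hB : cons (((1 : Multiplicative ℤ), c) • s.1 0) (tail s.1) 0 ∉
            ({mkL yp 1} : Set (Letter X0)) := hs2
        rw [Ky.a2_neg hA, Ky.a2_neg hB]
  have e2 : h2 * F c = F c * (x⁻¹ * F (b * c⁻¹) * x) * h2 := by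
    apply Ky.ext_iff
    intro s
    rw [Ky.mul_coe, Ky.mul_coe, Ky.mul_coe, hF, hν, h2c, hF, h2c]
    by_cases hs : s.1 0 ∈ Set.range t2
    · obtain ⟨n, hn'⟩ := hs
      have hs1 : s.1 0 ∈ Set.range t2 := ⟨n, hn'⟩
      have hcs : ((1 : Multiplicative ℤ), c) • s.1 0 = t2 (n + 1) := by
        rw [← hn', Ky.smul_mkL, smul_smul, ← pow_succ']
      rw [Ky.a2_pos hs1]
      have hA : cons (((1 : Multiplicative ℤ), c) • s.1 0) (tail s.1) 0 ∈ Set.range t2 :=
        ⟨n + 1, hcs.symm⟩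
      rw [Ky.a2_pos hA]
      have hB : cons (s.1 0) (cons (((1 : Multiplicative ℤ), b * c⁻¹) • s.1 1)
          (tail (tail s.1))) 0 ∉ ({mkL ym (-1)} : Set (Letter X0)) := by
        intro h
        have h0 : s.1 0 = mkL ym (-1) := h
        rw [← hn'] at h0
        have h' : c ^ (n + 1) • ym = ym := (Ky.mkL_inj.1 h0).1
        have h'' := Ky.pow_lt hc hc.ym_lt (Nat.succ_pos n)
        rw [pow_zero, one_smul] at h''
        exact absurd h' h''.ne'
      rw [Ky.a2_neg hB]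
      rfl
    · rw [Ky.a2_neg hs]
      by_cases hs2 : s.1 0 = mkL ym (-1)
      · have hA : cons (((1 : Multiplicative ℤ), c) • s.1 0) (tail s.1) 0 ∈ Set.range t2 := by
          refine ⟨0, ?_⟩
          show mkL (c ^ (0 + 1) • ym) (-1) = ((1 : Multiplicative ℤ), c) • s.1 0
          rw [hs2, Ky.smul_mkL, zero_add, pow_one]
        have hB : s.1 0 ∈ ({mkL ym (-1)} : Set (Letter X0)) := hs2
        rw [Ky.a2_pos hA, Ky.a2_pos hB]
        rfl
      · have hA : cons (((1 : Multiplicative ℤ), c) • s.1 0) (tail s.1) 0 ∉ Set.range t2 := by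
          rintro ⟨n, hn'⟩
          have hn2 : ((1 : Multiplicative ℤ), c) • s.1 0 = mkL (c ^ (n + 1) • ym) (-1) := hn'.symm
          rw [Ky.smul_eq_mkL, smul_smul, pow_succ', inv_mul_cancel_left] at hn2
          cases n with
          | zero =>
            rw [pow_zero, one_smul] at hn2
            exact hs2 hn2
          | succ n => exact hs ⟨n, hn2.symm⟩
        have hB : s.1 0 ∉ ({mkL ym (-1)} : Set (Letter X0)) := hs2
        rw [Ky.a2_neg hA, Ky.a2_neg hB]
  have e3 : (x * F (c⁻¹ * b) * x⁻¹) * F (b * c⁻¹) = F (b * c⁻¹) * (x * F (c⁻¹ * b) * x⁻¹) := by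
    apply Ky.ext_iff
    intro s
    have hypV0 : mkL yp 1 ∉ (sys hP hc).V0 := fun h => lt_irrefl _ h.2.2
    rw [Ky.mul_coe (f := x * F (c⁻¹ * b) * x⁻¹), Ky.mul_coe (f := F (b * c⁻¹)), hμ, hF, hF, hμ]
    by_cases hs : s.1 0 = mkL yp 1
    · have hρy : ((1 : Multiplicative ℤ), b * c⁻¹) • s.1 0 = s.1 0 := by
        rw [hs, Ky.smul_mkL, Ky.H_fix_yp hc hρ2]
      have hB : s.1 0 ∈ ({mkL yp 1} : Set (Letter X0)) := hs
      rw [Ky.a2_pos hB, hρy, cons_head_tail, Ky.a2_pos hB]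
      show _ = cons (((1 : Multiplicative ℤ), b * c⁻¹) • s.1 0) _
      rw [hρy]
      rfl
    · have hB : s.1 0 ∉ ({mkL yp 1} : Set (Letter X0)) := hs
      rw [Ky.a2_neg hB]
      have hA : cons (((1 : Multiplicative ℤ), b * c⁻¹) • s.1 0) (tail s.1) 0 ∉
          ({mkL yp 1} : Set (Letter X0)) := by
        intro h
        apply hs
        have h' : ((1 : Multiplicative ℤ), b * c⁻¹) • s.1 0 = mkL yp 1 := h
        rw [Ky.smul_eq_mkL] at h'
        rw [h', Ky.H_fix_yp hc (H.inv_mem hρ2)]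
      rw [Ky.a2_neg hA]
  refine ⟨x, x * h2, h1, ?_⟩
  have e4 : h1 * F c * h1⁻¹ = (x * F (c⁻¹ * b) * x⁻¹) * F c := by
    rw [e1, mul_inv_cancel_right]
  have e5 : h2 * F c * h2⁻¹ = F c * (x⁻¹ * F (b * c⁻¹) * x) := by
    rw [e2, mul_inv_cancel_right]
  have e6 : x * h2 * F c * (x * h2)⁻¹ = x * F c * x⁻¹ * F (b * c⁻¹) := by
    calc x * h2 * F c * (x * h2)⁻¹ = x * (h2 * F c * h2⁻¹) * x⁻¹ := by group
      _ = x * (F c * (x⁻¹ * F (b * c⁻¹) * x)) * x⁻¹ := by rw [e5]
      _ = x * F c * x⁻¹ * F (b * c⁻¹) := by group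
  have e7 : F c * F (c⁻¹ * b) = F b := by
    rw [← map_mul, mul_inv_cancel_left]
  have e8 : F (b * c⁻¹) * F c = F b := by
    rw [← map_mul, inv_mul_cancel_right]
  rw [e6, e4]
  calc x * F b * x⁻¹ * F b
      = x * (F c * F (c⁻¹ * b)) * x⁻¹ * (F (b * c⁻¹) * F c) := by rw [e7, e8]
    _ = (x * F c * x⁻¹) * ((x * F (c⁻¹ * b) * x⁻¹) * F (b * c⁻¹)) * F c := by group
    _ = (x * F c * x⁻¹) * (F (b * c⁻¹) * (x * F (c⁻¹ * b) * x⁻¹)) * F c := by rw [e3]
    _ = x * F c * x⁻¹ * F (b * c⁻¹) * (x * F (c⁻¹ * b) * x⁻¹ * F c) := by group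

end Auts

/-- P5b: the key lemma -/
theorem key {K : Type} [Group K] {P : K → Prop} (hP : IsCone P) {b c : K} (h : KeyPair P b c) :
    ∃ (M : Type) (_ : Group M) (Q : M → Prop) (f : K →* M), IsCone Q ∧ (∀ k, P k → Q (f k)) ∧
      Eqn (f b) (f c) := by
  obtain ⟨H, hconv, hPc, hcH, hn, hbc⟩ := h
  obtain ⟨X0, _, _, Lo, ym, yp, hc⟩ := exists_chain hP hconv hPc hcH hn
  obtain ⟨F, hF, hF'⟩ := exists_hom hP hc
  exact ⟨(sys hP hc).Γ, inferInstance, fun f => (sys hP hc).Pos f.1, F, (sys hP hc).germ_order,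
    hF', relation hP hc hcH hn b hbc F hF⟩

end Pool.Agent.Kokorin

/-! P7: all pairs at once (finite iteration and an ultraproduct) -/

set_option autoImplicit false

namespace Pool.Agent.Kokorin

/-- the total order defined by a cone -/
@[instance_reducible] noncomputable def uOrd {G : Type} [Group G] {P : G → Prop} (hP : IsCone P) : LinearOrder G where
  le a b := a = b ∨ P (a⁻¹ * b)
  lt a b := P (a⁻¹ * b)
  le_refl a := Or.inl rfl
  le_trans a b c := by
    rintro (rfl | h1) (rfl | h2)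
    · exact Or.inl rfl
    · exact Or.inr h2
    · exact Or.inr h1
    · right
      have h := hP.mul _ _ h1 h2
      have e : a⁻¹ * b * (b⁻¹ * c) = a⁻¹ * c := by group
      rwa [e] at h
  lt_iff_le_not_ge a b := by
    constructor
    · intro h
      refine ⟨Or.inr h, ?_⟩
      rintro (rfl | h2)
      · rw [inv_mul_cancel] at h
        exact hP.one h
      · have h3 := hP.mul _ _ h h2
        have e : a⁻¹ * b * (b⁻¹ * a) = 1 := by group
        rw [e] at h3
        exact hP.one h3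
    · rintro ⟨rfl | h1, h2⟩
      · exact absurd (Or.inl rfl) h2
      · exact h1
  le_antisymm a b := by
    rintro (rfl | h1) (h | h2)
    · rfl
    · rfl
    · exact h.symm
    · exfalso
      have h3 := hP.mul _ _ h1 h2
      have e : a⁻¹ * b * (b⁻¹ * a) = 1 := by group
      rw [e] at h3
      exact hP.one h3
  le_total a b := by
    by_cases h : a = b
    · exact Or.inl (Or.inl h)
    · have h1 : a⁻¹ * b ≠ 1 := by
        intro h2
        apply h
        have := congrArg (fun t => a * t) h2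
        simpa using this.symm
      rcases hP.total _ h1 with h2 | h2
      · exact Or.inl (Or.inr h2)
      · right; right
        have e : (a⁻¹ * b)⁻¹ = b⁻¹ * a := by group
        rwa [e] at h2
  toDecidableLE := Classical.decRel _

theorem uOrd_left {G : Type} [Group G] {P : G → Prop} (hP : IsCone P) (c a b : G)
    (h : (uOrd hP).le a b) : (uOrd hP).le (c * a) (c * b) := by
  rcases h with rfl | h
  · exact Or.inl rfl
  · right
    have e : (c * a)⁻¹ * (c * b) = a⁻¹ * b := by group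
    rwa [e]

theorem uOrd_right {G : Type} [Group G] {P : G → Prop} (hP : IsCone P) (c a b : G)
    (h : (uOrd hP).le a b) : (uOrd hP).le (a * c) (b * c) := by
  rcases h with rfl | h
  · exact Or.inl rfl
  · right
    have h2 := hP.conj c⁻¹ _ h
    have e : c⁻¹ * (a⁻¹ * b) * c⁻¹⁻¹ = (a * c)⁻¹ * (b * c) := by group
    rwa [e] at h2

/-- a hom preserving cones is strictly monotone -/
theorem keyPair_map {K M : Type} [Group K] [Group M] {P : K → Prop} {Q : M → Prop}
    (hP : IsCone P) (hQ : IsCone Q) (f : K →* M) (hf : ∀ k, P k → Q (f k)) {b c : K}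
    (h : KeyPair P b c) : KeyPair Q (f b) (f c) := by
  obtain ⟨H, h1, h2, h3, h4, h5⟩ := h
  let _ : LinearOrder K := uOrd hP
  let _ : LinearOrder M := uOrd hQ
  have : MulLeftMono M := ⟨fun c a b h => uOrd_left hQ c a b h⟩
  have : MulRightMono M := ⟨fun c a b h => uOrd_right hQ c a b h⟩
  have hpos : ∀ m : M, Q m ↔ 1 < m := by
    intro m
    change Q m ↔ Q (1⁻¹ * m)
    rw [inv_one, one_mul]
  have hposK : ∀ m : K, P m ↔ 1 < m := by
    intro m
    change P m ↔ P (1⁻¹ * m)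
    rw [inv_one, one_mul]
  have hmono : StrictMono f := by
    intro x y hxy
    change Q ((f x)⁻¹ * f y)
    rw [← map_inv, ← map_mul]
    exact hf _ hxy
  have hmonole : ∀ x y : K, x ≤ y → f x ≤ f y := fun x y hxy => hmono.monotone hxy
  have hreg : ∀ x y : K, f x ≤ f y → x ≤ y := by
    intro x y hxy
    by_contra hcon
    exact absurd (hmono (not_le.mp hcon)) (not_lt.mpr hxy)
  -- the subgroup
  let H' : Subgroup M :=
    { carrier := {m | ∃ h ∈ H, (f h)⁻¹ ≤ m ∧ m ≤ f h}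
      one_mem' := ⟨1, H.one_mem, by simp, by simp⟩
      mul_mem' := by
        rintro m m' ⟨x, hx, hx1, hx2⟩ ⟨y, hy, hy1, hy2⟩
        rcases le_total (x * y) (y * x) with hxy | hxy
        · refine ⟨y * x, H.mul_mem hy hx, ?_, ?_⟩
          · rw [map_mul, mul_inv_rev]
            exact mul_le_mul' hx1 hy1
          · calc m * m' ≤ f x * f y := mul_le_mul' hx2 hy2
              _ = f (x * y) := (map_mul f x y).symm
              _ ≤ f (y * x) := hmonole _ _ hxy
        · refine ⟨x * y, H.mul_mem hx hy, ?_, ?_⟩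
          · calc (f (x * y))⁻¹ ≤ (f (y * x))⁻¹ := inv_le_inv_iff.mpr (hmonole _ _ hxy)
              _ = (f x)⁻¹ * (f y)⁻¹ := by rw [map_mul, mul_inv_rev]
              _ ≤ m * m' := mul_le_mul' hx1 hy1
          · rw [map_mul]
            exact mul_le_mul' hx2 hy2
      inv_mem' := by
        rintro m ⟨x, hx, hx1, hx2⟩
        refine ⟨x, hx, inv_le_inv_iff.mpr hx2, ?_⟩
        have := inv_le_inv_iff.mpr hx1
        rwa [inv_inv] at this }
  have hmem : ∀ m : M, m ∈ H' ↔ ∃ h ∈ H, (f h)⁻¹ ≤ m ∧ m ≤ f h := fun m => Iff.rfl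
  refine ⟨H', ?_, hf c h2, ?_, ?_, ?_⟩
  · intro g m hg hm hgm
    rw [hmem] at hm ⊢
    obtain ⟨x, hx, hx1, hx2⟩ := hm
    have hg1 : (1 : M) < g := (hpos g).mp hg
    have hgm1 : g < m := hgm
    have hx3 : g < f x := lt_of_lt_of_le hgm1 hx2
    refine ⟨x, hx, ?_, hx3.le⟩
    have : (1 : M) ≤ f x := (hg1.trans hx3).le
    exact le_trans (inv_le_one'.mpr this) hg1.le
  · intro hc
    rw [hmem] at hc
    obtain ⟨x, hx, hx1, hx2⟩ := hc
    have hcx : c ≤ x := hreg _ _ hx2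
    rcases eq_or_lt_of_le hcx with heq | hlt
    · rw [heq] at h3
      exact h3 hx
    · exact h3 (h1 c x h2 hx hlt)
  · intro m
    rw [hmem, hmem]
    constructor
    · rintro ⟨x, hx, hx1, hx2⟩
      refine ⟨c * x * c⁻¹, (h4 x).mp hx, ?_, ?_⟩
      · have e : (f (c * x * c⁻¹))⁻¹ = f c * (f x)⁻¹ * (f c)⁻¹ := by
          simp only [map_mul, map_inv]
          group
        rw [e]
        exact mul_le_mul' (mul_le_mul' le_rfl hx1) le_rfl
      · have e : f (c * x * c⁻¹) = f c * (f x) * (f c)⁻¹ := by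
          simp only [map_mul, map_inv]
        rw [e]
        exact mul_le_mul' (mul_le_mul' le_rfl hx2) le_rfl
    · rintro ⟨x, hx, hx1, hx2⟩
      have hx' : c⁻¹ * x * c ∈ H := by
        rw [h4]
        have e : c * (c⁻¹ * x * c) * c⁻¹ = x := by group
        rwa [e]
      refine ⟨c⁻¹ * x * c, hx', ?_, ?_⟩
      · have e : (f (c⁻¹ * x * c))⁻¹ = (f c)⁻¹ * (f x)⁻¹ * (f c) := by
          simp only [map_mul, map_inv]
          group
        have e2 : m = (f c)⁻¹ * (f c * m * (f c)⁻¹) * (f c) := by group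
        rw [e, e2]
        exact mul_le_mul' (mul_le_mul' le_rfl hx1) le_rfl
      · have e : f (c⁻¹ * x * c) = (f c)⁻¹ * (f x) * (f c) := by
          simp only [map_mul, map_inv]
        have e2 : m = (f c)⁻¹ * (f c * m * (f c)⁻¹) * (f c) := by group
        rw [e]
        conv_lhs => rw [e2]
        exact mul_le_mul' (mul_le_mul' le_rfl hx2) le_rfl
  · rw [hmem]
    have e : (f b)⁻¹ * f c = f (b⁻¹ * c) := by simp
    rw [e]
    rcases le_total (b⁻¹ * c) (b⁻¹ * c)⁻¹ with hle | hle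
    · refine ⟨(b⁻¹ * c)⁻¹, H.inv_mem h5, ?_, hmonole _ _ hle⟩
      rw [← map_inv, inv_inv]
    · refine ⟨b⁻¹ * c, h5, ?_, le_rfl⟩
      rw [← map_inv]
      exact hmonole _ _ hle

theorem ultra_eqn_map {K M : Type} [Group K] [Group M] (f : K →* M) {b c : K} (h : Eqn b c) :
    Eqn (f b) (f c) := by
  obtain ⟨x, y, z, h⟩ := h
  refine ⟨f x, f y, f z, ?_⟩
  have := congrArg f h
  simpa only [map_mul, map_inv] using this

theorem finite_pairs {K : Type} [Group K] {P : K → Prop} (hP : IsCone P) (F : Finset (K × K))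
    (hF : ∀ p ∈ F, KeyPair P p.1 p.2) :
    ∃ (M : Type) (_ : Group M) (Q : M → Prop) (f : K →* M), IsCone Q ∧ (∀ k, P k → Q (f k)) ∧
      ∀ p ∈ F, Eqn (f p.1) (f p.2) := by
  classical
  induction F using Finset.induction_on with
  | empty =>
    exact ⟨K, inferInstance, P, MonoidHom.id K, hP, fun k hk => hk, by simp⟩
  | insert a s ha ih =>
    obtain ⟨M, iM, Q, f, hQ, hf, hE⟩ := ih (fun p hp => hF p (Finset.mem_insert_of_mem hp))
    have hk : KeyPair Q (f a.1) (f a.2) :=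
      keyPair_map hP hQ f hf (hF a (Finset.mem_insert_self a s))
    obtain ⟨M', iM', Q', g, hQ', hg, hE'⟩ := key hQ hk
    refine ⟨M', iM', Q', g.comp f, hQ', fun k hk => hg _ (hf _ hk), ?_⟩
    intro p hp
    rcases Finset.mem_insert.mp hp with rfl | hp
    · exact hE'
    · exact ultra_eqn_map g (hE p hp)

section Ultra

variable {ι : Type} (M : ι → Type) [∀ i, Group (M i)] (𝒰 : Filter ι)

/-- the normal subgroup of the product of eventually trivial families -/
def evN : Subgroup (∀ i, M i) where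
  carrier := {m | ∀ᶠ i in 𝒰, m i = 1}
  one_mem' := by simp
  mul_mem' := by
    intro a b ha hb
    change ∀ᶠ i in 𝒰, a i = 1 at ha
    change ∀ᶠ i in 𝒰, b i = 1 at hb
    change ∀ᶠ i in 𝒰, (a * b) i = 1
    filter_upwards [ha, hb] with i h1 h2
    rw [Pi.mul_apply, h1, h2, one_mul]
  inv_mem' := by
    intro a ha
    change ∀ᶠ i in 𝒰, a i = 1 at ha
    change ∀ᶠ i in 𝒰, (a⁻¹) i = 1
    filter_upwards [ha] with i h1
    rw [Pi.inv_apply, h1, inv_one]

instance evN_normal : (evN M 𝒰).Normal := ⟨by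
  intro n hn g
  change ∀ᶠ i in 𝒰, (g * n * g⁻¹) i = 1
  have hn' : ∀ᶠ i in 𝒰, n i = 1 := hn
  filter_upwards [hn'] with i h1
  rw [Pi.mul_apply, Pi.mul_apply, Pi.inv_apply, h1, mul_one, mul_inv_cancel]⟩

theorem evN_eq (a b : ∀ i, M i) :
    (QuotientGroup.mk a : (∀ i, M i) ⧸ evN M 𝒰) = QuotientGroup.mk b ↔ ∀ᶠ i in 𝒰, a i = b i := by
  rw [QuotientGroup.eq]
  change (∀ᶠ i in 𝒰, (a⁻¹ * b) i = 1) ↔ _
  apply Filter.eventually_congr
  filter_upwards with i
  rw [Pi.mul_apply, Pi.inv_apply, inv_mul_eq_one]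

variable (Q : ∀ i, M i → Prop)

/-- the cone of the reduced product -/
def evQ (x : (∀ i, M i) ⧸ evN M 𝒰) : Prop :=
  ∃ m : ∀ i, M i, QuotientGroup.mk m = x ∧ ∀ᶠ i in 𝒰, Q i (m i)

theorem evQ_mk (m : ∀ i, M i) :
    evQ M 𝒰 Q (QuotientGroup.mk m) ↔ ∀ᶠ i in 𝒰, Q i (m i) := by
  constructor
  · rintro ⟨m', h1, h2⟩
    rw [evN_eq] at h1
    filter_upwards [h1, h2] with i h3 h4
    rwa [← h3]
  · intro h
    exact ⟨m, rfl, h⟩

end Ultra

theorem ultra_cone {ι : Type} (M : ι → Type) [∀ i, Group (M i)] (𝒰 : Ultrafilter ι)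
    (Q : ∀ i, M i → Prop) (hQ : ∀ i, IsCone (Q i)) : IsCone (evQ M (𝒰 : Filter ι) Q) := by
  constructor
  · intro h
    have h' : evQ M (𝒰 : Filter ι) Q (QuotientGroup.mk 1) := h
    rw [evQ_mk] at h'
    obtain ⟨i, hi⟩ := h'.exists
    exact (hQ i).one hi
  · intro a b
    induction a using QuotientGroup.induction_on with
    | _ a =>
    induction b using QuotientGroup.induction_on with
    | _ b =>
    intro ha hb
    rw [evQ_mk] at ha hb
    have : evQ M (𝒰 : Filter ι) Q (QuotientGroup.mk (a * b)) := by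
      rw [evQ_mk]
      filter_upwards [ha, hb] with i h1 h2
      exact (hQ i).mul _ _ h1 h2
    exact this
  · intro g a
    induction a using QuotientGroup.induction_on with
    | _ a =>
    induction g using QuotientGroup.induction_on with
    | _ g =>
    intro ha
    rw [evQ_mk] at ha
    have : evQ M (𝒰 : Filter ι) Q (QuotientGroup.mk (g * a * g⁻¹)) := by
      rw [evQ_mk]
      filter_upwards [ha] with i h1
      exact (hQ i).conj _ _ h1
    exact this
  · intro a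
    induction a using QuotientGroup.induction_on with
    | _ a =>
    intro ha
    have h1 : ¬ ∀ᶠ i in (𝒰 : Filter ι), a i = 1 := by
      intro h
      apply ha
      exact (evN_eq M 𝒰 a 1).mpr h
    have h2 : ∀ᶠ i in (𝒰 : Filter ι), a i ≠ 1 := Ultrafilter.eventually_not.mpr h1
    have h3 : ∀ᶠ i in (𝒰 : Filter ι), Q i (a i) ∨ Q i (a i)⁻¹ := by
      filter_upwards [h2] with i h4
      exact (hQ i).total _ h4
    rcases Ultrafilter.eventually_or.mp h3 with h4 | h4
    · left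
      rw [evQ_mk]
      exact h4
    · right
      have : evQ M (𝒰 : Filter ι) Q (QuotientGroup.mk a⁻¹) := by
        rw [evQ_mk]
        exact h4
      exact this

theorem all_pairs {K : Type} [Group K] {P : K → Prop} (hP : IsCone P) :
    ∃ (M : Type) (_ : Group M) (Q : M → Prop) (f : K →* M), IsCone Q ∧ (∀ k, P k → Q (f k)) ∧
      ∀ b c, KeyPair P b c → Eqn (f b) (f c) := by
  classical
  let ι : Type := Finset {p : K × K // KeyPair P p.1 p.2}
  have hfin : ∀ F : ι, ∃ (M : Type) (_ : Group M) (Q : M → Prop) (f : K →* M), IsCone Q ∧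
      (∀ k, P k → Q (f k)) ∧ ∀ p ∈ F, Eqn (f p.1.1) (f p.1.2) := by
    intro F
    obtain ⟨M, iM, Q, f, h1, h2, h3⟩ := finite_pairs hP (F.image Subtype.val) (by
      intro p hp
      obtain ⟨q, hq, rfl⟩ := Finset.mem_image.mp hp
      exact q.2)
    exact ⟨M, iM, Q, f, h1, h2, fun p hp => h3 p.1 (Finset.mem_image_of_mem _ hp)⟩
  choose M iM Q f hQ hf hE using hfin
  let _ : ∀ F, Group (M F) := iM
  let 𝒰 : Ultrafilter ι := Ultrafilter.of Filter.atTop
  have h𝒰 : (𝒰 : Filter ι) ≤ Filter.atTop := Ultrafilter.of_le _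
  let g : K →* ((∀ F, M F) ⧸ evN M (𝒰 : Filter ι)) :=
    (QuotientGroup.mk' (evN M (𝒰 : Filter ι))).comp (MonoidHom.pi f)
  refine ⟨(∀ F, M F) ⧸ evN M (𝒰 : Filter ι), inferInstance, evQ M (𝒰 : Filter ι) Q, g,
    ultra_cone M 𝒰 Q hQ, ?_, ?_⟩
  · intro k hk
    have : evQ M (𝒰 : Filter ι) Q (QuotientGroup.mk (fun F => f F k)) := by
      rw [evQ_mk]
      exact Filter.Eventually.of_forall (fun F => hf F k hk)
    exact this
  · intro b c hbc
    have hev : ∀ᶠ F in (𝒰 : Filter ι), Eqn (f F b) (f F c) := by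
      apply h𝒰
      filter_upwards [Filter.eventually_ge_atTop ({⟨(b, c), hbc⟩} : ι)] with F hF
      exact hE F ⟨(b, c), hbc⟩ (hF (Finset.mem_singleton_self _))
    have hch : ∀ F : ι, ∃ x y z : M F, Eqn (f F b) (f F c) →
        (x * f F b * x⁻¹) * f F b = (y * f F c * y⁻¹) * (z * f F c * z⁻¹) := by
      intro F
      by_cases h : Eqn (f F b) (f F c)
      · obtain ⟨x, y, z, h'⟩ := h
        exact ⟨x, y, z, fun _ => h'⟩
      · exact ⟨1, 1, 1, fun h' => absurd h' h⟩
    choose x y z hxyz using hch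
    refine ⟨QuotientGroup.mk x, QuotientGroup.mk y, QuotientGroup.mk z, ?_⟩
    change (QuotientGroup.mk ((x * (fun F => f F b) * x⁻¹) * (fun F => f F b)) :
      (∀ F, M F) ⧸ evN M (𝒰 : Filter ι)) =
      QuotientGroup.mk ((y * (fun F => f F c) * y⁻¹) * (z * (fun F => f F c) * z⁻¹))
    rw [evN_eq]
    filter_upwards [hev] with F hF
    exact hxyz F hF

end Pool.Agent.Kokorin

/-! P8: countable iteration -/

set_option autoImplicit false

namespace Pool.Agent.Kokorin

theorem keyPair_comap {K M : Type} [Group K] [Group M] {P : K → Prop} {Q : M → Prop}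
    (hP : IsCone P) (hQ : IsCone Q) (f : K →* M) (hf : ∀ k, P k → Q (f k)) {b c : K}
    (h : KeyPair Q (f b) (f c)) : KeyPair P b c := by
  obtain ⟨H, h1, h2, h3, h4, h5⟩ := h
  refine ⟨H.comap f, ?_, ?_, ?_, ?_, ?_⟩
  · intro g m hg hm hgm
    rw [Subgroup.mem_comap] at hm ⊢
    refine h1 (f g) (f m) (hf _ hg) hm ?_
    have := hf _ hgm
    simpa using this
  · have hc1 : c ≠ 1 := by
      rintro rfl
      apply h3
      rw [map_one]
      exact H.one_mem
    rcases hP.total c hc1 with h | h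
    · exact h
    · exfalso
      have h6 := hQ.mul _ _ h2 (hf _ h)
      rw [← map_mul, mul_inv_cancel, map_one] at h6
      exact hQ.one h6
  · intro hc
    rw [Subgroup.mem_comap] at hc
    exact h3 hc
  · intro m
    rw [Subgroup.mem_comap, Subgroup.mem_comap, h4]
    simp
  · rw [Subgroup.mem_comap]
    simpa using h5

section Lim

variable {T : ℕ → Type} [iT : ∀ n, Group (T n)]

/-- the thread through `z : T m` -/
def thr (f : ∀ n, T n →* T (n + 1)) (m : ℕ) (z : T m) : ∀ n, T n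
  | 0 => if h : m = 0 then h ▸ z else 1
  | n + 1 => if h : m = n + 1 then h ▸ z else f n (thr f m z n)

theorem thr_self (f : ∀ n, T n →* T (n + 1)) (m : ℕ) (z : T m) : thr f m z m = z := by
  cases m with
  | zero => simp [thr]
  | succ k => simp [thr]

theorem thr_succ (f : ∀ n, T n →* T (n + 1)) (m : ℕ) (z : T m) (n : ℕ) (h : m ≤ n) :
    thr f m z (n + 1) = f n (thr f m z n) := by
  rw [thr, dif_neg (by omega)]

theorem thr_mul (f : ∀ n, T n →* T (n + 1)) (m : ℕ) (z w : T m) (n : ℕ) :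
    thr f m (z * w) n = thr f m z n * thr f m w n := by
  induction n with
  | zero =>
    by_cases h : m = 0
    · subst h
      simp [thr]
    · simp [thr, h]
  | succ k ih =>
    by_cases h : m = k + 1
    · subst h
      simp [thr]
    · simp only [thr, dif_neg h, ih, map_mul]

/-- a coherent family is a thread -/
theorem thr_coh (f : ∀ n, T n →* T (n + 1)) (m : ℕ) (g : ∀ n, T n)
    (hg : ∀ n, m ≤ n → g (n + 1) = f n (g n)) (n : ℕ) (hn : m ≤ n) : thr f m (g m) n = g n := by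
  induction n, hn using Nat.le_induction with
  | base => exact thr_self f m _
  | succ k hk ih => rw [thr_succ f m _ k hk, ih, hg k hk]

/-- eventually coherent families -/
def coh (f : ∀ n, T n →* T (n + 1)) : Subgroup (∀ n, T n) where
  carrier := {g | ∃ m, ∀ n, m ≤ n → g (n + 1) = f n (g n)}
  one_mem' := ⟨0, fun n _ => by simp⟩
  mul_mem' := by
    rintro a b ⟨m, hm⟩ ⟨k, hk⟩
    refine ⟨max m k, fun n hn => ?_⟩
    rw [Pi.mul_apply, Pi.mul_apply, hm n (le_trans (le_max_left _ _) hn),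
      hk n (le_trans (le_max_right _ _) hn), map_mul]
  inv_mem' := by
    rintro a ⟨m, hm⟩
    refine ⟨m, fun n hn => ?_⟩
    rw [Pi.inv_apply, Pi.inv_apply, hm n hn, map_inv]

/-- the limit group -/
abbrev Lm (f : ∀ n, T n →* T (n + 1)) : Subgroup ((∀ n, T n) ⧸ evN T Filter.atTop) :=
  (coh f).map (QuotientGroup.mk' (evN T Filter.atTop))

/-- the canonical map into the limit -/
def toLm (f : ∀ n, T n →* T (n + 1)) (m : ℕ) : T m →* Lm f where
  toFun z := ⟨QuotientGroup.mk (thr f m z), ⟨thr f m z, ⟨m, fun n hn => thr_succ f m z n hn⟩, rfl⟩⟩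
  map_one' := by
    apply Subtype.ext
    change (QuotientGroup.mk (thr f m 1) : (∀ n, T n) ⧸ evN T Filter.atTop) = QuotientGroup.mk 1
    congr 1
    funext n
    have h := thr_mul f m 1 1 n
    rw [mul_one] at h
    exact (mul_eq_left.mp h.symm)
  map_mul' z w := by
    apply Subtype.ext
    change (QuotientGroup.mk (thr f m (z * w)) : (∀ n, T n) ⧸ evN T Filter.atTop) =
      QuotientGroup.mk (thr f m z * thr f m w)
    congr 1
    funext n
    exact thr_mul f m z w n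

theorem toLm_val (f : ∀ n, T n →* T (n + 1)) (m : ℕ) (z : T m) :
    (toLm f m z).1 = QuotientGroup.mk (thr f m z) := rfl

theorem toLm_succ (f : ∀ n, T n →* T (n + 1)) (m : ℕ) (z : T m) :
    toLm f (m + 1) (f m z) = toLm f m z := by
  apply Subtype.ext
  rw [toLm_val, toLm_val, evN_eq]
  filter_upwards [Filter.eventually_ge_atTop (m + 1)] with n hn
  have h1 := thr_coh f (m + 1) (thr f m z) (fun n hn => thr_succ f m z n (by omega)) n hn
  rw [thr_succ f m z m le_rfl, thr_self] at h1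
  exact h1

theorem toLm_coh (f : ∀ n, T n →* T (n + 1)) (m : ℕ) (g : ∀ n, T n)
    (hg : ∀ n, m ≤ n → g (n + 1) = f n (g n)) :
    (toLm f m (g m)).1 = QuotientGroup.mk g := by
  rw [toLm_val, evN_eq]
  filter_upwards [Filter.eventually_ge_atTop m] with n hn
  exact thr_coh f m g hg n hn

/-- every element of the limit comes from all high enough levels -/
theorem Lm_lift (f : ∀ n, T n →* T (n + 1)) (x : Lm f) :
    ∃ m, ∀ k, m ≤ k → ∃ z : T k, toLm f k z = x := by
  obtain ⟨x, ⟨g, ⟨m, hm⟩, rfl⟩⟩ := x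
  refine ⟨m, fun k hk => ⟨g k, ?_⟩⟩
  apply Subtype.ext
  exact toLm_coh f k g (fun n hn => hm n (hk.trans hn))

variable (Q : ∀ n, T n → Prop)

/-- the cone of the limit -/
def LmQ (f : ∀ n, T n →* T (n + 1)) (x : Lm f) : Prop := evQ T Filter.atTop Q x.1

theorem LmQ_toLm (f : ∀ n, T n →* T (n + 1)) (hf : ∀ n k, Q n k → Q (n + 1) (f n k)) (m : ℕ)
    (z : T m) (hz : Q m z) : LmQ Q f (toLm f m z) := by
  unfold LmQ
  rw [toLm_val, evQ_mk]
  filter_upwards [Filter.eventually_ge_atTop m] with n hn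
  induction n, hn using Nat.le_induction with
  | base => rwa [thr_self]
  | succ k hk ih =>
    rw [thr_succ f m z k hk]
    exact hf k _ ih

theorem LmQ_cone (f : ∀ n, T n →* T (n + 1)) (hQ : ∀ n, IsCone (Q n))
    (hf : ∀ n k, Q n k → Q (n + 1) (f n k)) : IsCone (LmQ Q f) := by
  constructor
  · intro h
    have h' : evQ T Filter.atTop Q (QuotientGroup.mk 1) := h
    rw [evQ_mk] at h'
    obtain ⟨i, hi⟩ := h'.exists
    exact (hQ i).one hi
  · rintro ⟨a', ⟨a, ha1, rfl⟩⟩ ⟨b', ⟨b, hb1, rfl⟩⟩ ha hb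
    have ha' : evQ T Filter.atTop Q (QuotientGroup.mk a) := ha
    have hb' : evQ T Filter.atTop Q (QuotientGroup.mk b) := hb
    rw [evQ_mk] at ha' hb'
    have : evQ T Filter.atTop Q (QuotientGroup.mk (a * b)) := by
      rw [evQ_mk]
      filter_upwards [ha', hb'] with i h1 h2
      exact (hQ i).mul _ _ h1 h2
    exact this
  · rintro ⟨g', ⟨g, hg1, rfl⟩⟩ ⟨a', ⟨a, ha1, rfl⟩⟩ ha
    have ha' : evQ T Filter.atTop Q (QuotientGroup.mk a) := ha
    rw [evQ_mk] at ha'
    have : evQ T Filter.atTop Q (QuotientGroup.mk (g * a * g⁻¹)) := by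
      rw [evQ_mk]
      filter_upwards [ha'] with i h1
      exact (hQ i).conj _ _ h1
    exact this
  · intro x hx
    obtain ⟨m, hm⟩ := Lm_lift f x
    obtain ⟨z, rfl⟩ := hm m le_rfl
    have hz : z ≠ 1 := by
      rintro rfl
      exact hx (map_one _)
    rcases (hQ m).total z hz with h | h
    · left
      exact LmQ_toLm Q f hf m z h
    · right
      rw [← map_inv]
      exact LmQ_toLm Q f hf m _ h

theorem limit (f : ∀ n, T n →* T (n + 1)) (hQ : ∀ n, IsCone (Q n))
    (hf : ∀ n k, Q n k → Q (n + 1) (f n k))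
    (hE : ∀ n b c, KeyPair (Q n) b c → Eqn (f n b) (f n c)) (b c : Lm f)
    (h : KeyPair (LmQ Q f) b c) : Eqn b c := by
  obtain ⟨m1, hm1⟩ := Lm_lift f b
  obtain ⟨m2, hm2⟩ := Lm_lift f c
  obtain ⟨z, rfl⟩ := hm1 (max m1 m2) (le_max_left _ _)
  obtain ⟨w, rfl⟩ := hm2 (max m1 m2) (le_max_right _ _)
  have h1 : KeyPair (Q (max m1 m2)) z w :=
    keyPair_comap (hQ _) (LmQ_cone Q f hQ hf) (toLm f _) (LmQ_toLm Q f hf _) h
  have h2 := ultra_eqn_map (toLm f (max m1 m2 + 1)) (hE _ _ _ h1)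
  rwa [toLm_succ, toLm_succ] at h2

end Lim

/-- a group with a cone -/
structure Bd where
  T : Type
  grp : Group T
  Q : T → Prop
  cone : IsCone Q

instance (B : Bd) : Group B.T := B.grp

theorem Bd.exists_next (B : Bd) : ∃ (C : Bd) (f : B.T →* C.T), (∀ k, B.Q k → C.Q (f k)) ∧
    ∀ b c, KeyPair B.Q b c → Eqn (f b) (f c) := by
  obtain ⟨M, iM, Q, f, h1, h2, h3⟩ := all_pairs B.cone
  exact ⟨⟨M, iM, Q, h1⟩, f, h2, h3⟩

theorem omega {K : Type} [Group K] {P : K → Prop} (hP : IsCone P) :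
    ∃ (M : Type) (_ : Group M) (Q : M → Prop) (f : K →* M), IsCone Q ∧ (∀ k, P k → Q (f k)) ∧
      ∀ b c, KeyPair Q b c → Eqn b c := by
  choose nx F hF1 hF2 using Bd.exists_next
  let B : ℕ → Bd := fun n => Nat.rec (motive := fun _ => Bd) (⟨K, inferInstance, P, hP⟩ : Bd)
    (fun _ C => nx C) n
  let f : ∀ n, (B n).T →* (B (n + 1)).T := fun n => F (B n)
  have hQ : ∀ n, IsCone (B n).Q := fun n => (B n).cone
  have hf : ∀ n k, (B n).Q k → (B (n + 1)).Q (f n k) := fun n k hk => hF1 (B n) k hk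
  have hE : ∀ n b c, KeyPair (B n).Q b c → Eqn (f n b) (f n c) := fun n b c h =>
    hF2 (B n) b c h
  exact ⟨Lm f, inferInstance, LmQ (fun n => (B n).Q) f, toLm f 0,
    LmQ_cone (fun n => (B n).Q) f hQ hf, fun k hk => LmQ_toLm (fun n => (B n).Q) f hf 0 k hk,
    fun b c h => limit (fun n => (B n).Q) f hQ hf hE b c h⟩

end Pool.Agent.Kokorin

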